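import Mathlib

/-! # The coordinate ring of the elliptic curve `y² = x³ + x` minus its 2-torsion -/

set_option autoImplicit false

open Polynomial

namespace Pool.Agent.W620.SB

/-- The elliptic curve `y² = x³ + x` over `ℚ`. -/
def EC : WeierstrassCurve.Affine ℚ := ⟨0, 0, 0, 1, 0⟩

/-- The coordinate ring `ℚ[x, y]/(y² - x³ - x)`. -/
abbrev A0 : Type := EC.CoordinateRing

/-- The function `x`. -/
noncomputable def x0 : A0 := WeierstrassCurve.Affine.CoordinateRing.mk EC (C X)

/-- The function `y`. -/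
noncomputable def y0 : A0 := WeierstrassCurve.Affine.CoordinateRing.mk EC X

/-- The coordinate ring `R = ℚ[x, y, 1/y]/(y² - x³ - x)` of the curve minus its 2-torsion. -/
abbrev RR : Type := Localization.Away y0

/-- The function `x`. -/
noncomputable def xx : RR := algebraMap A0 RR x0

/-- The function `y`. -/
noncomputable def yy : RR := algebraMap A0 RR y0

theorem EC_polynomial : EC.polynomial = X ^ 2 - C (X ^ 3 + X) := by
  simp [WeierstrassCurve.Affine.polynomial, EC]

theorem y0_sq : y0 ^ 2 = x0 ^ 3 + x0 := by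
  unfold y0 x0
  rw [← map_pow, ← map_pow, ← map_add]
  refine AdjoinRoot.mk_eq_mk.mpr ⟨1, ?_⟩
  rw [EC_polynomial]
  simp

theorem yy_sq : yy ^ 2 = xx ^ 3 + xx := by
  unfold yy xx
  rw [← map_pow, y0_sq, map_add, map_pow]

theorem isUnit_yy : IsUnit yy := IsLocalization.Away.algebraMap_isUnit y0

theorem isUnit_xx_mul : IsUnit (xx * (xx ^ 2 + 1)) := by
  have h : xx * (xx ^ 2 + 1) = yy ^ 2 := by rw [yy_sq]; ring
  rw [h]
  exact isUnit_yy.pow 2

theorem isUnit_xx : IsUnit xx := isUnit_of_mul_isUnit_left isUnit_xx_mul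

theorem isUnit_xx' : IsUnit (xx ^ 2 + 1) := isUnit_of_mul_isUnit_right isUnit_xx_mul

section point

variable {K : Type*} [CommRing K] [Algebra ℚ K] (a b : K)

/-- The homomorphism `A0 → K` given by a point `(a, b)`. -/
noncomputable def point0 (h : b ^ 2 = a ^ 3 + a) : A0 →+* K :=
  AdjoinRoot.lift (Polynomial.aeval a : ℚ[X] →ₐ[ℚ] K).toRingHom b (by
    rw [EC_polynomial, eval₂_sub, eval₂_pow, eval₂_X, eval₂_C, h]
    simp)

theorem point0_x (h : b ^ 2 = a ^ 3 + a) : point0 a b h x0 = a := by
  unfold point0 x0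
  rw [AdjoinRoot.lift_mk]
  simp

theorem point0_y (h : b ^ 2 = a ^ 3 + a) : point0 a b h y0 = b := by
  unfold point0 y0
  rw [AdjoinRoot.lift_mk]
  simp

/-- The homomorphism `R → K` given by a point `(a, b)` with `b` invertible. -/
noncomputable def point (h : b ^ 2 = a ^ 3 + a) (hb : IsUnit b) : RR →ₐ[ℚ] K :=
  RingHom.toRatAlgHom (IsLocalization.Away.lift (S := RR) y0 (g := point0 a b h)
    (by rw [point0_y]; exact hb))

theorem point_x (h : b ^ 2 = a ^ 3 + a) (hb : IsUnit b) : point a b h hb xx = a := by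
  have hb' : IsUnit (point0 a b h y0) := by rw [point0_y]; exact hb
  have := IsLocalization.Away.lift_eq (S := RR) y0 hb' x0
  rw [point0_x] at this
  exact this

theorem point_y (h : b ^ 2 = a ^ 3 + a) (hb : IsUnit b) : point a b h hb yy = b := by
  have hb' : IsUnit (point0 a b h y0) := by rw [point0_y]; exact hb
  have := IsLocalization.Away.lift_eq (S := RR) y0 hb' y0
  rw [point0_y] at this
  exact this

omit [Algebra ℚ K] in
/-- Homomorphisms from `R` are determined by the images of `x` and `y`. -/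
theorem RR_hom_ext {f g : RR →+* K} (hx : f xx = g xx) (hy : f yy = g yy) : f = g := by
  refine IsLocalization.ringHom_ext (Submonoid.powers y0) ?_
  refine AdjoinRoot.ringHom_ext ?_ hy
  refine Polynomial.ringHom_ext' (RingHom.ext_rat _ _) hx

end point

theorem EC_poly_aux (p q : ℚ[X]) (h : p ^ 2 = q ^ 2 * (X ^ 3 + X)) : p = 0 ∧ q = 0 := by
  have hd : (X ^ 3 + X : ℚ[X]).natDegree = 3 := by compute_degree!
  have hne : (X ^ 3 + X : ℚ[X]) ≠ 0 := by
    intro h0
    rw [h0] at hd
    simp at hd
  by_cases hq : q = 0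
  · refine ⟨?_, hq⟩
    rw [hq] at h
    simpa using h
  · exfalso
    have h1 := congrArg natDegree h
    rw [natDegree_pow, natDegree_mul (pow_ne_zero 2 hq) hne, natDegree_pow, hd] at h1
    omega

theorem point_injective {K : Type*} [CommRing K] [IsDomain K] [Algebra ℚ K] (f : RR →+* K)
    (ht : Transcendental ℚ (f xx)) : Function.Injective f := by
  have h0 : Function.Injective (f.comp (algebraMap A0 RR)) := by
    rw [injective_iff_map_eq_zero]
    intro z hz
    obtain ⟨p, q, rfl⟩ := WeierstrassCurve.Affine.CoordinateRing.exists_smul_basis_eq z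
    have hC (r : ℚ[X]) : (f.comp (algebraMap A0 RR))
        (WeierstrassCurve.Affine.CoordinateRing.mk EC (C r)) = aeval (f xx) r := by
      have : ((f.comp (algebraMap A0 RR)).comp (WeierstrassCurve.Affine.CoordinateRing.mk EC)).comp
        (C : ℚ[X] →+* ℚ[X][X]) = (aeval (f xx) : ℚ[X] →ₐ[ℚ] K).toRingHom := by
        refine Polynomial.ringHom_ext' (RingHom.ext_rat _ _) ?_
        simp [xx, x0]
      exact congrArg (fun g : ℚ[X] →+* K => g r) this
    rw [WeierstrassCurve.Affine.CoordinateRing.smul, WeierstrassCurve.Affine.CoordinateRing.smul,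
      mul_one, map_add, map_mul, hC, hC] at hz
    have hy : ((f.comp (algebraMap A0 RR)) (WeierstrassCurve.Affine.CoordinateRing.mk EC X)) ^ 2
        = aeval (f xx) (X ^ 3 + X : ℚ[X]) := by
      change (f yy) ^ 2 = _
      rw [← map_pow, yy_sq]
      simp
    have h1 : aeval (f xx) (p ^ 2 - q ^ 2 * (X ^ 3 + X)) = 0 := by
      rw [map_sub, map_mul, map_pow, map_pow, ← hy]
      linear_combination (aeval (f xx) p - aeval (f xx) q *
        (f.comp (algebraMap A0 RR)) (WeierstrassCurve.Affine.CoordinateRing.mk EC X)) * hz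
    have h2 : p ^ 2 - q ^ 2 * (X ^ 3 + X) = 0 := by
      by_contra hne
      exact ht ⟨_, hne, h1⟩
    obtain ⟨rfl, rfl⟩ := EC_poly_aux p q (sub_eq_zero.1 h2)
    simp
  rw [injective_iff_map_eq_zero]
  intro z hz
  obtain ⟨n, a, ha⟩ := IsLocalization.Away.surj y0 z
  have h1 : (f.comp (algebraMap A0 RR)) a = 0 := by
    rw [RingHom.comp_apply, ← ha, map_mul, hz, zero_mul]
  rw [injective_iff_map_eq_zero] at h0
  rw [h0 a h1, map_zero] at ha
  exact (IsUnit.mul_left_eq_zero ((IsLocalization.Away.algebraMap_isUnit y0).pow n)).1 ha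

instance : IsDomain RR := by
  have hy : y0 ≠ 0 := by
    intro h
    have h1 := y0_sq
    have h2 := WeierstrassCurve.Affine.CoordinateRing.smul_basis_eq_zero (W' := EC) (p := 0) (q := 1)
      (by rw [zero_smul, zero_add, one_smul]; exact h)
    exact one_ne_zero h2.2
  exact IsLocalization.isDomain_localization (powers_le_nonZeroDivisors_of_noZeroDivisors hy)

instance : Algebra.FiniteType ℚ RR := by
  have h1 : Algebra.FiniteType ℚ[X] A0 := inferInstanceAs (Algebra.FiniteType ℚ[X] (AdjoinRoot _))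
  have h2 : Algebra.FiniteType ℚ A0 := Algebra.FiniteType.trans (S := ℚ[X]) inferInstance h1
  infer_instance

end Pool.Agent.W620.SB
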