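import Pool.Agent.W620.SB.Pi3
import Pool.Agent.W620.SB.Ring

/-! # A Galois invariant generic point of the curve -/

set_option autoImplicit false

open Polynomial

namespace Pool.Agent.W620.SB

open Pool.Agent.Helper165.P1

instance : CharZero Om := charZero_of_injective_ringHom (f := cst (E := Qb)) (RingHom.injective _)

theorem tt_pow_coe (n : ℕ) : (((tt : Om) ^ n : Om) : HQ Qb) = HahnSeries.single (n : ℚ) (1 : Qb) := by
  have h : (((tt : Om) ^ n : Om) : HQ Qb) = ((tt : Om) : HQ Qb) ^ n := rfl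
  rw [h, tt_coe, HahnSeries.single_pow]
  simp

theorem cf_sum (z : ℕ → Om) (s : Finset ℕ) (q : ℚ) :
    cf (∑ i ∈ s, z i) q = ∑ i ∈ s, cf (z i) q := by
  classical
  induction s using Finset.induction_on with
  | empty => simp [cf]
  | insert a s ha ih => rw [Finset.sum_insert ha, Finset.sum_insert ha, ← ih]; rfl

theorem cf_rat_mul (c : ℚ) (z : Om) (q : ℚ) :
    cf (algebraMap ℚ Om c * z) q = algebraMap ℚ Qb c * cf z q := by
  have h : algebraMap ℚ Om c = cst (algebraMap ℚ Qb c) := by
    rw [eq_ratCast, eq_ratCast, map_ratCast]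
  rw [h]
  change ((HahnSeries.C (algebraMap ℚ Qb c) : HQ Qb) * (z : HQ Qb)).coeff q = _
  rw [HahnSeries.C_mul_eq_smul]
  rfl

theorem transcendental_tt_sq : Transcendental ℚ ((tt : Om) ^ 2) := by
  rintro ⟨p, hp, h⟩
  apply hp
  ext n
  rw [aeval_eq_sum_range] at h
  have h1 := congrArg (fun z : Om => cf z ((2 * n : ℕ) : ℚ)) h
  by_cases hn : n ∈ Finset.range (p.natDegree + 1)
  · have h2 : cf (∑ i ∈ Finset.range (p.natDegree + 1), p.coeff i • ((tt : Om) ^ 2) ^ i)
        ((2 * n : ℕ) : ℚ) = algebraMap ℚ Qb (p.coeff n) := by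
      rw [cf_sum, Finset.sum_eq_single n]
      · rw [Algebra.smul_def, cf_rat_mul, ← pow_mul]
        unfold cf
        rw [tt_pow_coe, HahnSeries.coeff_single, if_pos rfl, mul_one]
      · intro i _ hi
        rw [Algebra.smul_def, cf_rat_mul, ← pow_mul]
        unfold cf
        rw [tt_pow_coe, HahnSeries.coeff_single, if_neg, mul_zero]
        intro h
        apply hi
        have : 2 * n = 2 * i := by exact_mod_cast h
        omega
      · intro h; exact absurd hn h
    have h4 : cf (0 : Om) ((2 * n : ℕ) : ℚ) = 0 := rfl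
    change cf _ _ = cf _ _ at h1
    rw [h2, h4, map_eq_zero] at h1
    simpa using h1
  · rw [Finset.mem_range, not_lt] at hn
    rw [coeff_eq_zero_of_natDegree_lt (by omega), coeff_zero]

theorem exists_root : ∃ r : Om, r ^ 2 = 1 + tt ^ 4 ∧ ∀ g : GQ, gact g r = r := by
  obtain ⟨r, hr⟩ := IsAlgClosed.exists_pow_nat_eq (1 + tt ^ 4 : Om) (n := 2) two_pos
  have hz : ((1 + tt ^ 4 : Om) : HQ Qb) = 1 + HahnSeries.single (4 : ℚ) (1 : Qb) := by
    have := tt_pow_coe 4
    change 1 + (((tt : Om) ^ 4 : Om) : HQ Qb) = _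
    rw [this]
    norm_num
  have hcoef (q : ℚ) : cf (1 + tt ^ 4 : Om) q = (if q = 0 then 1 else 0) + (if q = 4 then 1 else 0) := by
    unfold cf
    rw [hz, HahnSeries.coeff_add, HahnSeries.coeff_one, HahnSeries.coeff_single]
    by_cases h0 : q = 0 <;> by_cases h4 : q = 4 <;> simp only [h0, h4, if_true, if_false]
  have hz0 : (1 + tt ^ 4 : Om) ≠ 0 := by
    intro h
    have := hcoef 0
    rw [h] at this
    simp [cf] at this
  have hz0' : ((1 + tt ^ 4 : Om) : HQ Qb) ≠ 0 := fun h => hz0 (Subtype.ext h)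
  have hord : ((1 + tt ^ 4 : Om) : HQ Qb).order = 0 := by
    have h1 : ((1 + tt ^ 4 : Om) : HQ Qb).order ≤ 0 := by
      apply HahnSeries.order_le_of_coeff_ne_zero
      have := hcoef 0
      unfold cf at this
      rw [this]
      norm_num
    have h2 : ((1 + tt ^ 4 : Om) : HQ Qb).coeff ((1 + tt ^ 4 : Om) : HQ Qb).order ≠ 0 :=
      fun h => hz0' (HahnSeries.coeff_order_eq_zero.1 h)
    have h3 := hcoef ((1 + tt ^ 4 : Om) : HQ Qb).order
    unfold cf at h3
    rw [h3] at h2
    by_contra h4
    rw [if_neg h4, zero_add] at h2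
    have h5 : ((1 + tt ^ 4 : Om) : HQ Qb).order = 4 := by
      by_contra h6
      rw [if_neg h6] at h2
      exact h2 rfl
    rw [h5] at h1
    norm_num at h1
  have hlead : ((1 + tt ^ 4 : Om) : HQ Qb).leadingCoeff = 1 := by
    rw [HahnSeries.leadingCoeff_eq, hord]
    have := hcoef 0
    unfold cf at this
    rw [this]
    norm_num
  have hc : (r : HQ Qb).leadingCoeff ^ 2 = 1 := by
    have h1 : ((r : HQ Qb) * (r : HQ Qb)) = ((1 + tt ^ 4 : Om) : HQ Qb) := by
      rw [← hr, pow_two]; rfl
    rw [pow_two, ← HahnSeries.leadingCoeff_mul, h1, hlead]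
  have hc' : cf r (r : HQ Qb).order ^ 2 = 1 := by
    rw [HahnSeries.leadingCoeff_eq] at hc
    exact hc
  refine ⟨r, hr, fun g => ?_⟩
  have h1 : (gact g r) ^ 2 = r ^ 2 := by
    rw [← map_pow, hr, map_add, map_one, map_pow]
    have : gact g (tt : Om) = tt := act_tt _
    rw [this]
  rcases sq_eq_sq_iff_eq_or_eq_neg.1 h1 with h | h
  · exact h
  · exfalso
    have h2 : cf (gact g r) (r : HQ Qb).order = cf (-r) (r : HQ Qb).order := by rw [h]
    have h3 : cf (-r) (r : HQ Qb).order = - cf r (r : HQ Qb).order := rfl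
    rw [cf_gact, h3] at h2
    rcases sq_eq_one_iff.1 hc' with h4 | h4
    all_goals
      rw [h4] at h2
      norm_num at h2


open CategoryTheory AlgebraicGeometry

/-- The curve `X = Spec R`. -/
noncomputable abbrev XX : Scheme.{0} := Spec (.of RR)

/-- Its structure morphism. -/
noncomputable abbrev str : XX ⟶ Spec (.of ℚ) := Spec.map (CommRingCat.ofHom (algebraMap ℚ RR))

theorem splittingCondition_XX : SplittingCondition str := by
  obtain ⟨r, hr, hfix⟩ := exists_root
  have hb2 : ((tt : Om) * r) ^ 2 = ((tt : Om) ^ 2) ^ 3 + (tt : Om) ^ 2 := by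
    rw [mul_pow, hr]; ring
  have ht0 : (tt : Om) ≠ 0 := by
    intro h
    have := transcendental_tt_sq
    rw [h] at this
    exact this (by simpa using isAlgebraic_zero)
  have hb : IsUnit ((tt : Om) * r) := by
    refine IsUnit.mk0 _ (fun h => ?_)
    rw [h] at hb2
    have h1 : ((tt : Om) ^ 2) * (1 + tt ^ 4) = 0 := by
      have : ((tt : Om) ^ 2) * (1 + tt ^ 4) = ((tt : Om) ^ 2) ^ 3 + (tt : Om) ^ 2 := by ring
      rw [this, ← hb2]; ring
    rcases mul_eq_zero.1 h1 with h2 | h2
    · exact ht0 (pow_eq_zero_iff two_ne_zero |>.1 h2)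
    · refine transcendental_tt_sq ⟨1 + X ^ 2, ?_, ?_⟩
      · intro h3
        have := congrArg (Polynomial.coeff · 0) h3
        simp at this
      · rw [map_add, map_one, map_pow, aeval_X, ← pow_mul]
        exact h2
  let f : RR →ₐ[ℚ] Om := point ((tt : Om) ^ 2) ((tt : Om) * r) hb2 hb
  have hfx : f xx = (tt : Om) ^ 2 := point_x _ _ _ _
  have hfy : f yy = (tt : Om) * r := point_y _ _ _ _
  have hinj : Function.Injective (f : RR →+* Om) := by
    apply point_injective
    change Transcendental ℚ (f xx)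
    rw [hfx]
    exact transcendental_tt_sq
  refine splitting_of_point str (Spec.map (CommRingCat.ofHom (f : RR →+* Om))) ?_ ?_
  · intro g
    unfold sg
    rw [← Spec.map_comp, ← CommRingCat.ofHom_comp]
    congr 2
    refine RR_hom_ext ?_ ?_
    · change gact g (f xx) = f xx
      rw [hfx, map_pow]
      have : gact g (tt : Om) = tt := act_tt _
      rw [this]
    · change gact g (f yy) = f yy
      rw [hfy, map_mul, hfix]
      have : gact g (tt : Om) = tt := act_tt _
      rw [this]
  · rintro U ⟨w, hw⟩ z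
    have hs : (Spec.map (CommRingCat.ofHom (f : RR →+* Om))) z ⤳ w := by
      refine (PrimeSpectrum.le_iff_specializes _ _).1 ?_
      intro a ha
      have h1 : (f : RR →+* Om) a ∈ (z : PrimeSpectrum Om).asIdeal := ha
      have h2 : (z : PrimeSpectrum Om).asIdeal = ⊥ := by
        rcases Ideal.eq_bot_or_top (z : PrimeSpectrum Om).asIdeal with h | h
        · exact h
        · exact absurd h (z : PrimeSpectrum Om).isPrime.ne_top
      rw [h2, Ideal.mem_bot] at h1
      have h3 : a = 0 := by
        apply hinj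
        rw [h1, map_zero]
      rw [h3]
      exact Ideal.zero_mem _
    exact hs.mem_open U.isOpen hw

end Pool.Agent.W620.SB
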