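import Pool.Agent.Helper165.P1.Pui

/-! # The coefficientwise action of the Galois group on Puiseux series -/

set_option autoImplicit false

open Polynomial

namespace Pool.Agent.W620.SB

open Pool.Agent.Helper165.P1

section

variable {E : Type*} [Field E]

/-- Apply a ring homomorphism to the coefficients. -/
noncomputable def hmap (σ : E →+* E) : HQ E →+* HQ E where
  toFun x := x.map σ
  map_one' := HahnSeries.map_one σ.toMonoidWithZeroHom
  map_zero' := by ext; simp
  map_add' x y := HahnSeries.map_add (σ : E →+ E)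
  map_mul' x y := HahnSeries.map_mul (σ : E →ₙ+* E)

theorem hmap_coeff (σ : E →+* E) (x : HQ E) (q : ℚ) : (hmap σ x).coeff q = σ (x.coeff q) := rfl

/-- Apply a ring homomorphism to the coefficients of a Laurent series. -/
noncomputable def lmap (σ : E →+* E) (x : NP.LS E) : NP.LS E := HahnSeries.map x σ

theorem hmap_eHom (σ : E →+* E) (m : ℕ) (hm : 0 < m) (x : NP.LS E) :
    hmap σ (eHom m hm x) = eHom m hm (lmap σ x) := by
  ext q
  rw [hmap_coeff]
  by_cases h : ∃ n : ℤ, (n : ℚ) / m = q
  · obtain ⟨n, rfl⟩ := h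
    rw [eHom_coeff, eHom_coeff]
    rfl
  · push Not at h
    rw [eHom_coeff_of_ne m hm x q h, eHom_coeff_of_ne m hm _ q h, map_zero]

theorem hmap_mem (σ : E →+* E) (x : Pui E) : hmap σ x ∈ Pui E := by
  obtain ⟨m, hm, y, hy⟩ := x.2
  refine ⟨m, hm, lmap σ y, ?_⟩
  rw [← hmap_eHom, hy]

/-- The action on Puiseux series. -/
noncomputable def act (σ : E →+* E) : Pui E →+* Pui E :=
  ((hmap σ).comp (Pui E).subtype).codRestrict (Pui E) (hmap_mem σ)

/-- The coefficient of `t ^ q`. -/
def cf (x : Pui E) (q : ℚ) : E := (x : HQ E).coeff q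

theorem cf_ext {x y : Pui E} (h : ∀ q, cf x q = cf y q) : x = y :=
  Subtype.ext (HahnSeries.ext (funext h))

theorem cf_act (σ : E →+* E) (x : Pui E) (q : ℚ) : cf (act σ x) q = σ (cf x q) := rfl

/-- The constant series. -/
noncomputable def cst : E →+* Pui E :=
  (HahnSeries.C (Γ := ℚ) (R := E)).codRestrict (Pui E) (fun a => by
    refine ⟨1, one_pos, HahnSeries.C a, ?_⟩
    unfold eHom
    rw [HahnSeries.embDomainRingHom_C])

theorem cst_coe (a : E) : ((cst a : Pui E) : HQ E) = HahnSeries.C a := rfl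

theorem act_cst (σ : E →+* E) (a : E) : act σ (cst a) = cst (σ a) := by
  apply cf_ext
  intro q
  rw [cf_act]
  unfold cf
  rw [cst_coe, cst_coe, HahnSeries.C_apply, HahnSeries.C_apply, HahnSeries.coeff_single,
    HahnSeries.coeff_single]
  split_ifs <;> simp

/-- The variable. -/
noncomputable def tt : Pui E := ⟨HahnSeries.single (1 : ℚ) (1 : E), by
  refine ⟨1, one_pos, HahnSeries.single (1 : ℤ) (1 : E), ?_⟩
  ext q
  by_cases h : ∃ n : ℤ, (n : ℚ) / (1 : ℕ) = q
  · obtain ⟨n, rfl⟩ := h
    rw [eHom_coeff, HahnSeries.coeff_single, HahnSeries.coeff_single]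
    simp
  · push Not at h
    rw [eHom_coeff_of_ne 1 one_pos _ q h, HahnSeries.coeff_single]
    rw [if_neg]
    intro h1
    exact h 1 (by simp [h1])⟩

theorem tt_coe : ((tt : Pui E) : HQ E) = HahnSeries.single (1 : ℚ) (1 : E) := rfl

theorem act_tt (σ : E →+* E) : act σ (tt : Pui E) = tt := by
  apply cf_ext
  intro q
  rw [cf_act]
  unfold cf
  rw [tt_coe, HahnSeries.coeff_single]
  split_ifs <;> simp

end

end Pool.Agent.W620.SB
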