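import Pool.Agent.W620.SB.Act

/-! # Stabilisers of algebraic Puiseux series are open -/

set_option autoImplicit false

open Polynomial

namespace Pool.Agent.W620.SB

open Pool.Agent.Helper165.P1

/-- An algebraic closure of the rational numbers. -/
abbrev Qb : Type := AlgebraicClosure ℚ

/-- Its Galois group. -/
abbrev GQ : Type := Gal(Qb/ℚ)

/-- The field of Puiseux series over `Qb`. -/
abbrev Om : Type := Pui Qb

/-- The action on `Om`. -/
noncomputable def gact (g : GQ) : Om →+* Om := act (g : Qb →+* Qb)

theorem cf_gact (g : GQ) (x : Om) (q : ℚ) : cf (gact g x) q = g (cf x q) := rfl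

theorem gact_mul (g h : GQ) (x : Om) : gact (g * h) x = gact g (gact h x) :=
  cf_ext fun _ => rfl

theorem gact_one (x : Om) : gact 1 x = x := cf_ext fun _ => rfl

/-- The action as a group action. -/
noncomputable abbrev galAction : MulAction GQ Om where
  smul g x := gact g x
  one_smul := gact_one
  mul_smul := gact_mul

theorem isOpen_fix (α : Om) (p : Om[X]) (hp : p ≠ 0)
    (hfix : ∀ (g : GQ) (i : ℕ), gact g (p.coeff i) = p.coeff i) (hroot : p.eval α = 0) :
    IsOpen {g : GQ | gact g α = α} := by
  let _ := galAction
  classical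
  have : Algebra.IsIntegral ℚ Qb := (AlgebraicClosure.isAlgebraic ℚ).isIntegral
  have h1 : ({g : GQ | gact g α = α}) = (MulAction.stabilizer GQ α : Set GQ) := rfl
  rw [h1]
  have hcl : IsClosed (MulAction.stabilizer GQ α : Set GQ) := by
    have h2 : (MulAction.stabilizer GQ α : Set GQ)
        = ⋂ q : ℚ, (MulAction.stabilizer GQ (cf α q) : Set GQ) := by
      ext g
      simp only [Set.mem_iInter, SetLike.mem_coe, MulAction.mem_stabilizer_iff]
      constructor
      · intro h q
        have := congrArg (fun x => cf x q) h
        exact this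
      · intro h
        exact cf_ext h
    rw [h2]
    exact isClosed_iInter fun q =>
      Subgroup.isClosed_of_isOpen _ (stabilizer_isOpen_of_isIntegral (K := ℚ) (cf α q))
  have hfin : (MulAction.orbit GQ α).Finite := by
    refine Set.Finite.subset p.roots.toFinset.finite_toSet ?_
    rintro _ ⟨g, rfl⟩
    simp only [Finset.mem_coe, Multiset.mem_toFinset, mem_roots hp, IsRoot.def]
    change p.eval (gact g α) = 0
    have h3 : p.map (gact g) = p := by
      ext1 i
      rw [coeff_map, hfix]
    rw [← h3, eval_map, Polynomial.eval₂_at_apply, hroot, map_zero]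
  have hidx : (MulAction.stabilizer GQ α).FiniteIndex := by
    refine ⟨?_⟩
    rw [MulAction.index_stabilizer]
    exact (Set.ncard_pos hfin).2 ⟨α, MulAction.mem_orbit_self α⟩ |>.ne'
  exact Subgroup.isOpen_of_isClosed_of_finiteIndex _ hcl

end Pool.Agent.W620.SB
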