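import Pool.Agent.W620.SB.Ring

/-! # Adelic points -/

set_option autoImplicit false

open Polynomial
open scoped RestrictedProduct

namespace Pool.Agent.W620.SB

instance factPrime (p : Nat.Primes) : Fact (p : ℕ).Prime := ⟨p.2⟩

/-- The ring of adeles of `ℚ`: the product of the real numbers and of the restricted product of
the `p`-adic fields with respect to the rings of `p`-adic integers. -/
abbrev AdeleQ : Type := ℝ × Πʳ p : Nat.Primes, [ℚ_[(p : ℕ)], PadicInt.subring (p : ℕ)]

/-- The adelic points of the affine variety `Spec A` over `ℚ`. -/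
abbrev AdelicPoint (A : Type) [CommRing A] : Type := A →+* AdeleQ

/-- The evaluation of the finite part of an adele at a prime. -/
noncomputable def evalAt (p : Nat.Primes) : AdeleQ →+* ℚ_[(p : ℕ)] where
  toFun a := a.2 p
  map_one' := rfl
  map_mul' _ _ := rfl
  map_zero' := rfl
  map_add' _ _ := rfl

variable {A : Type} [CommRing A]

/-- The component of an adelic point at the real place. -/
noncomputable def AdelicPoint.real (P : AdelicPoint A) : A →+* ℝ := (RingHom.fst _ _).comp P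

/-- The component of an adelic point at a prime. -/
noncomputable def AdelicPoint.at (P : AdelicPoint A) (p : Nat.Primes) : A →+* ℚ_[(p : ℕ)] :=
  (evalAt p).comp P

/-- The diagonal embedding. -/
noncomputable def diag : ℚ →+* AdeleQ where
  toFun q := (q, ⟨fun p => (q : ℚ_[(p : ℕ)]), by
    have h : {p : Nat.Primes | (p : ℕ) ∣ q.den}.Finite := by
      refine Set.Finite.of_injOn (f := fun p : Nat.Primes => (p : ℕ)) (t := {n | n ∣ q.den}) ?_
        (Nat.Primes.coe_nat_injective.injOn) ?_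
      · intro p hp; exact hp
      · exact (Set.finite_le_nat q.den).subset fun n hn => Nat.le_of_dvd q.pos hn
    refine h.subset ?_
    intro p hp
    by_contra h1
    exact hp (Padic.norm_rat_le_one h1)⟩)
  map_one' := by
    refine Prod.ext Rat.cast_one ?_
    apply RestrictedProduct.ext
    intro p
    exact Rat.cast_one
  map_mul' a b := by
    refine Prod.ext (Rat.cast_mul a b) ?_
    apply RestrictedProduct.ext
    intro p
    exact Rat.cast_mul a b
  map_zero' := by
    refine Prod.ext Rat.cast_zero ?_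
    apply RestrictedProduct.ext
    intro p
    exact Rat.cast_zero
  map_add' a b := by
    refine Prod.ext (Rat.cast_add a b) ?_
    apply RestrictedProduct.ext
    intro p
    exact Rat.cast_add a b

theorem sqrt_of (p : ℕ) [Fact p.Prime] (a b : ℤ_[p]) (h : ‖b ^ 2 - a‖ < ‖2 * b‖ ^ 2) :
    ∃ z : ℤ_[p], z ^ 2 = a := by
  have h1 := hensels_lemma (R := ℤ_[p]) (F := (X ^ 2 - C a : ℤ_[p][X])) (a := b) (by
    have h2 : (derivative (X ^ 2 - C a : ℤ_[p][X])) = C 2 * X := by
      simp only [derivative_sub, derivative_X_pow, derivative_C, sub_zero]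
      norm_num
    rw [h2]
    simpa using h)
  obtain ⟨z, hz, -⟩ := h1
  refine ⟨z, ?_⟩
  simp only [map_sub, map_pow, aeval_X, aeval_C] at hz
  exact sub_eq_zero.1 hz

theorem sqrt_odd (p : ℕ) [Fact p.Prime] (hp : p ≠ 2) (a : ℤ) (ha : ¬ (p : ℤ) ∣ a)
    (hs : IsSquare (a : ZMod p)) : ∃ z : ℤ_[p], z ^ 2 = a := by
  obtain ⟨b, hb⟩ := hs
  obtain ⟨c, rfl⟩ := ZMod.intCast_surjective b
  have hdvd : (p : ℤ) ∣ c ^ 2 - a := by
    rw [← ZMod.intCast_zmod_eq_zero_iff_dvd]
    push_cast
    rw [hb]; ring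
  have hprime : Prime (p : ℤ) := Nat.prime_iff_prime_int.1 Fact.out
  have hc : ¬ (p : ℤ) ∣ c := by
    intro h
    apply ha
    have : a = c * c - (c ^ 2 - a) := by ring
    rw [this]
    exact dvd_sub (h.mul_right _) hdvd
  have h2 : ¬ (p : ℤ) ∣ 2 * c := by
    intro h
    rcases hprime.dvd_or_dvd h with h | h
    · have h3 : p ∣ 2 := by exact_mod_cast h
      exact hp ((Nat.prime_dvd_prime_iff_eq Fact.out Nat.prime_two).1 h3)
    · exact hc h
  obtain ⟨z, hz⟩ := sqrt_of p (a : ℤ_[p]) (c : ℤ_[p]) (by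
    have e1 : ((c : ℤ_[p]) ^ 2 - (a : ℤ_[p])) = ((c ^ 2 - a : ℤ) : ℤ_[p]) := by push_cast; ring
    have e2 : (2 * (c : ℤ_[p])) = ((2 * c : ℤ) : ℤ_[p]) := by push_cast; ring
    rw [e1, e2]
    have h3 : ‖((2 * c : ℤ) : ℤ_[p])‖ = 1 := by
      rw [← PadicInt.isUnit_iff]
      by_contra h4
      rw [PadicInt.not_isUnit_iff] at h4
      exact h2 ((PadicInt.norm_int_lt_one_iff_dvd _).1 h4)
    rw [h3, one_pow]
    exact (PadicInt.norm_int_lt_one_iff_dvd _).2 hdvd)
  exact ⟨z, hz⟩

theorem exists_isSquare (p : ℕ) [Fact p.Prime] (hp : 7 ≤ p) :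
    IsSquare ((3 : ℤ) : ZMod p) ∨ IsSquare ((10 : ℤ) : ZMod p) ∨ IsSquare ((30 : ℤ) : ZMod p) := by
  by_contra h
  push Not at h
  obtain ⟨h1, h2, h3⟩ := h
  rw [← quadraticChar_neg_one_iff_not_isSquare] at h1 h2 h3
  have h4 : quadraticChar (ZMod p) ((30 : ℤ) : ZMod p)
      = quadraticChar (ZMod p) ((3 : ℤ) : ZMod p) * quadraticChar (ZMod p) ((10 : ℤ) : ZMod p) := by
    rw [← map_mul]
    norm_num
  rw [h1, h2, h3] at h4
  norm_num at h4

theorem norm_coe_int_eq_one (p : ℕ) [Fact p.Prime] (a : ℤ) (h : ¬ (p : ℤ) ∣ a) :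
    ‖((a : ℤ) : ℚ_[p])‖ = 1 := by
  refine le_antisymm (Padic.norm_int_le_one a) ?_
  by_contra h1
  push Not at h1
  exact h (Padic.norm_intCast_lt_one_iff.1 h1)

theorem coe_sq (p : ℕ) [Fact p.Prime] (z : ℤ_[p]) (a : ℤ) (h : z ^ 2 = (a : ℤ_[p])) :
    (z : ℚ_[p]) ^ 2 = (a : ℚ_[p]) := by
  rw [← PadicInt.coe_pow, h, PadicInt.coe_intCast]

theorem sq_aux3 : ((10 : ℤ) : ZMod 3) = 1 * 1 := by decide

theorem sq_aux5 : ((626 : ℤ) : ZMod 5) = 1 * 1 := by decide

theorem local_point (p : ℕ) [Fact p.Prime] :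
    ∃ x y : ℚ_[p], y ^ 2 = x ^ 3 + x ∧ y ≠ 0 ∧ (7 ≤ p → ‖x‖ ≤ 1 ∧ ‖y‖ = 1) := by
  have hpp : p.Prime := Fact.out
  by_cases hp : 7 ≤ p
  · have hodd : p ≠ 2 := by omega
    have nd2 : ¬ (p : ℤ) ∣ 2 := by
      intro h
      have : p ∣ 2 := by exact_mod_cast h
      have := Nat.le_of_dvd two_pos this
      omega
    have nd3 : ¬ (p : ℤ) ∣ 3 := by
      intro h
      have : p ∣ 3 := by exact_mod_cast h
      have := Nat.le_of_dvd (by norm_num) this
      omega
    have nd5 : ¬ (p : ℤ) ∣ 5 := by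
      intro h
      have : p ∣ 5 := by exact_mod_cast h
      have := Nat.le_of_dvd (by norm_num) this
      omega
    have hprime : Prime (p : ℤ) := Nat.prime_iff_prime_int.1 Fact.out
    have nd10 : ¬ (p : ℤ) ∣ 10 := by
      intro h
      have : (p : ℤ) ∣ 2 * 5 := by norm_num; exact h
      rcases hprime.dvd_or_dvd this with h | h
      · exact nd2 h
      · exact nd5 h
    have nd30 : ¬ (p : ℤ) ∣ 30 := by
      intro h
      have : (p : ℤ) ∣ 3 * 10 := by norm_num; exact h
      rcases hprime.dvd_or_dvd this with h | h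
      · exact nd3 h
      · exact nd10 h
    have n2 := norm_coe_int_eq_one p 2 nd2
    have n3 := norm_coe_int_eq_one p 3 nd3
    have n5 := norm_coe_int_eq_one p 5 nd5
    have n10 := norm_coe_int_eq_one p 10 nd10
    have n30 := norm_coe_int_eq_one p 30 nd30
    push_cast at n2 n3 n5 n10 n30
    have hnorm {a z : ℚ_[p]} (hz : z ^ 2 = a) (ha : ‖a‖ = 1) : ‖z‖ = 1 := by
      have h1 : ‖z‖ ^ 2 = 1 := by rw [← norm_pow, hz, ha]
      exact (pow_eq_one_iff_of_nonneg (norm_nonneg z) two_ne_zero).1 h1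
    rcases exists_isSquare p hp with h | h | h
    · obtain ⟨z, hz⟩ := sqrt_odd p hodd 3 nd3 h
      have hz' : (z : ℚ_[p]) ^ 2 = 3 := by
        have := coe_sq p z 3 hz
        exact_mod_cast this
      have nz := hnorm hz' n3
      have n4 : ‖(4 : ℚ_[p])‖ = 1 := by
        have : (4 : ℚ_[p]) = 2 * 2 := by norm_num
        rw [this, norm_mul, n2, one_mul]
      have n8 : ‖(8 : ℚ_[p])‖ = 1 := by
        have : (8 : ℚ_[p]) = 2 * 4 := by norm_num
        rw [this, norm_mul, n2, n4, one_mul]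
      have ny : ‖(z : ℚ_[p]) * (5 / 8)‖ = 1 := by
        rw [norm_mul, norm_div, nz, n5, n8]; norm_num
      refine ⟨3 / 4, z * (5 / 8), ?_, ?_, fun _ => ⟨?_, ny⟩⟩
      · rw [mul_pow, hz']; norm_num
      · intro h0
        rw [h0, norm_zero] at ny
        norm_num at ny
      · rw [norm_div, n3, n4]; norm_num
    · obtain ⟨z, hz⟩ := sqrt_odd p hodd 10 nd10 h
      have hz' : (z : ℚ_[p]) ^ 2 = 10 := by
        have := coe_sq p z 10 hz
        exact_mod_cast this
      have nz := hnorm hz' n10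
      refine ⟨2, z, ?_, ?_, fun _ => ⟨n2.le, nz⟩⟩
      · rw [hz']; norm_num
      · intro h0
        rw [h0, norm_zero] at nz
        norm_num at nz
    · obtain ⟨z, hz⟩ := sqrt_odd p hodd 30 nd30 h
      have hz' : (z : ℚ_[p]) ^ 2 = 30 := by
        have := coe_sq p z 30 hz
        exact_mod_cast this
      have nz := hnorm hz' n30
      refine ⟨3, z, ?_, ?_, fun _ => ⟨n3.le, nz⟩⟩
      · rw [hz']; norm_num
      · intro h0
        rw [h0, norm_zero] at nz
        norm_num at nz
  · have h2 : p = 2 ∨ p = 3 ∨ p = 5 := by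
      push Not at hp
      have := hpp.two_le
      interval_cases p
      · left; rfl
      · right; left; rfl
      · exact absurd hpp (by norm_num)
      · right; right; rfl
      · exact absurd hpp (by norm_num)
    rcases h2 with rfl | rfl | rfl
    · obtain ⟨z, hz⟩ := sqrt_of 2 (17 : ℤ_[2]) 1 (by
        have e1 : ((1 : ℤ_[2]) ^ 2 - 17) = - ((2 : ℕ) : ℤ_[2]) ^ 4 := by norm_num
        have e2 : (2 * (1 : ℤ_[2])) = ((2 : ℕ) : ℤ_[2]) := by norm_num
        rw [e1, e2, norm_neg, norm_pow, PadicInt.norm_p]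
        norm_num)
      have hz' : (z : ℚ_[2]) ^ 2 = 17 := by
        have := coe_sq 2 z 17 (by rw [hz]; norm_num)
        exact_mod_cast this
      refine ⟨1 / 4, z / 8, ?_, ?_, fun h => absurd h hp⟩
      · rw [div_pow, hz']; norm_num
      · intro h0
        have : (z : ℚ_[2]) = 0 := by
          rcases div_eq_zero_iff.1 h0 with h | h
          · exact h
          · norm_num at h
        rw [this] at hz'
        norm_num at hz'
    · obtain ⟨z, hz⟩ := sqrt_odd 3 (by norm_num) 10 (by norm_num) ⟨1, sq_aux3⟩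
      have hz' : (z : ℚ_[3]) ^ 2 = 10 := by
        have := coe_sq 3 z 10 hz
        exact_mod_cast this
      refine ⟨2, z, ?_, ?_, fun h => absurd h hp⟩
      · rw [hz']; norm_num
      · intro h0
        rw [h0] at hz'
        norm_num at hz'
    · obtain ⟨z, hz⟩ := sqrt_odd 5 (by norm_num) 626 (by norm_num) ⟨1, sq_aux5⟩
      have hz' : (z : ℚ_[5]) ^ 2 = 626 := by
        have := coe_sq 5 z 626 hz
        exact_mod_cast this
      refine ⟨1 / 25, z / 125, ?_, ?_, fun h => absurd h hp⟩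
      · rw [div_pow, hz']; norm_num
      · intro h0
        have : (z : ℚ_[5]) = 0 := by
          rcases div_eq_zero_iff.1 h0 with h | h
          · exact h
          · norm_num at h
        rw [this] at hz'
        norm_num at hz'

theorem adelicPoint_nonempty : Nonempty (AdelicPoint RR) := by
  choose x y hxy hy0 hint using fun p : Nat.Primes => local_point (p : ℕ)
  have hfin : ∀ᶠ p : Nat.Primes in Filter.cofinite, 7 ≤ (p : ℕ) := by
    refine Set.Finite.subset (s := {p : Nat.Primes | (p : ℕ) < 7}) ?_ ?_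
    · exact Set.Finite.of_injOn (f := fun p : Nat.Primes => (p : ℕ)) (t := Set.Iio 7)
        (fun p hp => hp) (Nat.Primes.coe_nat_injective.injOn) (Set.finite_Iio 7)
    · intro p hp
      exact not_le.1 (fun h : 7 ≤ (p : ℕ) => hp h)
  let a : AdeleQ := (1, ⟨x, hfin.mono fun p hp => (hint p hp).1⟩)
  let b : AdeleQ := (√2, ⟨y, hfin.mono fun p hp => (hint p hp).2.le⟩)
  let b' : AdeleQ := ((√2)⁻¹, ⟨fun p => (y p)⁻¹, hfin.mono fun p hp => by
    change ‖(y p)⁻¹‖ ≤ 1
    rw [norm_inv, (hint p hp).2, inv_one]⟩)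
  have hb : b * b' = 1 := by
    refine Prod.ext ?_ ?_
    · exact mul_inv_cancel₀ (by positivity)
    · apply RestrictedProduct.ext
      intro p
      exact mul_inv_cancel₀ (hy0 p)
  have hab : b ^ 2 = a ^ 3 + a := by
    refine Prod.ext ?_ ?_
    · change (√2) ^ 2 = (1 : ℝ) ^ 3 + 1
      rw [Real.sq_sqrt (by norm_num)]
      norm_num
    · apply RestrictedProduct.ext
      intro p
      exact hxy p
  let _ : Algebra ℚ AdeleQ := diag.toAlgebra
  exact ⟨(point a b hab (IsUnit.of_mul_eq_one b' hb) : RR →ₐ[ℚ] AdeleQ).toRingHom⟩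

end Pool.Agent.W620.SB
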