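import Pool.Agent.W620.SB.FieldP
import Pool.Agent.W620.SB.Adele

/-! # The Brauer–Manin set -/

set_option autoImplicit false

open Module TensorProduct Polynomial

namespace Pool.Agent.W620.SB

/-- A local invariant map for the field `K`: a function on the `K`-algebras with values in `ℚ/ℤ`
which vanishes on a central simple (that is, Azumaya) `K`-algebra if and only if this algebra is
split, i.e. a matrix algebra over `K`. The local invariants of class field theory have this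
property. -/
structure LocalInvariant (K : Type) [Field K] where
  /-- the invariant -/
  inv : ∀ (B : Type) [Ring B] [Algebra K B], AddCircle (1 : ℚ)
  inv_eq_zero_iff : ∀ (B : Type) [Ring B] [Algebra K B] [IsAzumaya K B], inv B = 0 ↔ IsSplit K B

/-- The invariant of the fibre `K ⊗ B` of the algebra `B` over `A` at the `K`-point `f : A → K`. -/
noncomputable def LocalInvariant.pull {K : Type} [Field K] (I : LocalInvariant K) {A : Type}
    [CommRing A] (f : A →+* K) (B : Type) [Ring B] [Algebra A B] : AddCircle (1 : ℚ) :=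
  letI := f.toAlgebra
  I.inv (K ⊗[A] B)

/-- The Brauer–Manin set of `Spec A`: the adelic points which are orthogonal to all Azumaya
algebras over `A`. -/
def BrauerManinSet (A : Type) [CommRing A] (Ireal : LocalInvariant ℝ)
    (I : ∀ p : Nat.Primes, LocalInvariant ℚ_[(p : ℕ)]) : Set (AdelicPoint A) :=
  {P | ∀ (B : Type) [Ring B] [Algebra A B] [IsAzumaya A B],
    Ireal.pull P.real B + ∑ᶠ p : Nat.Primes, (I p).pull (P.at p) B = 0}

theorem IsSplit.congr {K A B : Type} [Field K] [Ring A] [Algebra K A] [Ring B] [Algebra K B]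
    (e : A ≃ₐ[K] B) : IsSplit K A ↔ IsSplit K B := by
  constructor
  · rintro ⟨n, hn, ⟨f⟩⟩
    exact ⟨n, hn, ⟨e.symm.trans f⟩⟩
  · rintro ⟨n, hn, ⟨f⟩⟩
    exact ⟨n, hn, ⟨e.trans f⟩⟩

section

variable {A : Type} [CommRing A] [Algebra ℚ A] [Nontrivial A] (L : Type) [Field L] [NumberField L]
  [DecidableEq Gal(L/ℚ)] [IsGalois ℚ L] (Cy : CycG Gal(L/ℚ)) (α : L)
  (hα : ∀ g : Gal(L/ℚ), g α = α → g = 1)

include hα in
theorem pull_eq_zero_iff {K : Type} [Field K] [Algebra ℚ K] (I : LocalInvariant K) (f : A →+* K)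
    (u : Aˣ) (v : Kˣ) (huv : (v : K) = f u) :
    I.pull f (CP (cycCoc Cy (galR A L) u)) = 0 ↔ IsSplit K (CP (cycCoc Cy (galR K L) v)) := by
  let _ := f.toAlgebra
  obtain ⟨e⟩ := baseChange_cyc A L K Cy u v huv
  have h1 : IsAzumaya K (CP (cycCoc Cy (galR K L) v)) := isAzumaya_cyc K L Cy v α hα
  have h2 : IsAzumaya K (K ⊗[A] CP (cycCoc Cy (galR A L) u)) := IsAzumaya.of_AlgEquiv _ _ _ e.symm
  have h3 : I.pull f (CP (cycCoc Cy (galR A L) u)) = I.inv (K ⊗[A] CP (cycCoc Cy (galR A L) u)) := rfl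
  rw [h3, I.inv_eq_zero_iff, IsSplit.congr e]

end

theorem isCyclic_gal (p : ℕ) [hp : Fact p.Prime] (L : Type) [Field L] [NumberField L]
    [IsCyclotomicExtension {p} ℚ L] : IsCyclic Gal(L/ℚ) := by
  have e := IsCyclotomicExtension.autEquivPow L (cyclotomic.irreducible_rat (n := p) hp.out.pos)
  exact isCyclic_of_surjective e.symm.toMonoidHom e.symm.surjective

/-- Units which are units everywhere and positive are congruent to one at all odd primes for every
adelic point which is orthogonal to the Brauer group. -/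
theorem norm_sub_one_lt {A : Type} [CommRing A] [Algebra ℚ A] [Nontrivial A]
    (Ireal : LocalInvariant ℝ) (I : ∀ p : Nat.Primes, LocalInvariant ℚ_[(p : ℕ)])
    (P : AdelicPoint A) (hP : P ∈ BrauerManinSet A Ireal I) (u : Aˣ)
    (hreal : 0 < P.real u) (hu : ∀ ℓ : Nat.Primes, ‖P.at ℓ u‖ = 1) (p : Nat.Primes)
    (hp2 : (p : ℕ) ≠ 2) : ‖P.at p u - 1‖ < 1 := by
  classical
  let L : Type := CyclotomicField (p : ℕ) ℚ
  have hL : IsCyclotomicExtension {(p : ℕ)} ℚ L := CyclotomicField.isCyclotomicExtension (p : ℕ) ℚ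
  have hG : IsGalois ℚ L := IsCyclotomicExtension.isGalois {(p : ℕ)} ℚ L
  have hcyc : IsCyclic Gal(L/ℚ) := isCyclic_gal (p : ℕ) L
  obtain ⟨Cy⟩ := CycG.nonempty Gal(L/ℚ)
  have hα : ∀ g : Gal(L/ℚ), g (zt (p : ℕ) L) = zt (p : ℕ) L → g = 1 :=
    fun g hg => gal_ext (p : ℕ) L hg
  have hAz : IsAzumaya A (CP (cycCoc Cy (galR A L) u)) := isAzumaya_cyc A L Cy u _ hα
  have h0 := hP (CP (cycCoc Cy (galR A L) u))
  -- the real place
  have h1 : Ireal.pull P.real (CP (cycCoc Cy (galR A L) u)) = 0 := by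
    rw [pull_eq_zero_iff L Cy _ hα Ireal P.real u (Units.map (P.real : A →* ℝ) u) rfl]
    obtain ⟨w, hw⟩ := real_is_norm L (P.real u) hreal
    exact isSplit_cyc L ℝ Cy _ _ hα w hw
  -- the other places
  have h2 (ℓ : Nat.Primes) (hne : ℓ ≠ p) :
      (I ℓ).pull (P.at ℓ) (CP (cycCoc Cy (galR A L) u)) = 0 := by
    rw [pull_eq_zero_iff L Cy _ hα (I ℓ) (P.at ℓ) u (Units.map (P.at ℓ : A →* ℚ_[(ℓ : ℕ)]) u) rfl]
    obtain ⟨w, hw⟩ := unit_is_norm (p : ℕ) L (ℓ : ℕ) (fun h => hne (Subtype.ext h)) (P.at ℓ u) (hu ℓ)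
    exact isSplit_cyc L ℚ_[(ℓ : ℕ)] Cy _ _ hα w hw
  rw [h1, zero_add, finsum_eq_single _ p h2,
    pull_eq_zero_iff L Cy _ hα (I p) (P.at p) u (Units.map (P.at p : A →* ℚ_[(p : ℕ)]) u) rfl] at h0
  obtain ⟨w, hw⟩ := norm_cyc L ℚ_[(p : ℕ)] Cy _ (by
    rw [card_gal (p : ℕ) L]
    have := p.2.two_le
    omega) (isUnit_of_ne_zero_p (p : ℕ) L hp2) h0
  exact nm_p (p : ℕ) L hp2 w _ hw (hu p)

end Pool.Agent.W620.SB
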