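import Pool.Agent.W620.SB.Nm

/-! # Local norms at `p` -/

set_option autoImplicit false

open Polynomial Module TensorProduct

namespace Pool.Agent.W620.SB

section ultra

variable {Ω ι : Type*} [NormedField Ω] [IsUltrametricDist Ω]

theorem ultra_sum [DecidableEq ι] (s : Finset ι) (f : ι → Ω) (i0 : ι) (hi0 : i0 ∈ s)
    (hpos : 0 < ‖f i0‖) (h : ∀ i ∈ s, i ≠ i0 → ‖f i‖ < ‖f i0‖) :
    ‖(∑ i ∈ s, f i) - f i0‖ < ‖f i0‖ := by
  rw [← Finset.add_sum_erase s f hi0, add_sub_cancel_left]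
  rcases (s.erase i0).eq_empty_or_nonempty with he | hne
  · rw [he, Finset.sum_empty, norm_zero]
    exact hpos
  · obtain ⟨j, hj, hle⟩ := IsUltrametricDist.exists_norm_finsetSum_le_of_nonempty hne f
    rw [Finset.mem_erase] at hj
    exact hle.trans_lt (h j hj.2 hj.1)

theorem ultra_eq (a b : Ω) (h : ‖a - b‖ < ‖b‖) : ‖a‖ = ‖b‖ := by
  have h1 : a = (a - b) + b := by ring
  rw [h1, IsUltrametricDist.norm_add_eq_max_of_norm_ne_norm h.ne, max_eq_right h.le]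

theorem ultra_prod [DecidableEq ι] (s : Finset ι) (f : ι → Ω) (y : Ω) (hy : ‖y‖ ≤ 1)
    (h : ∀ i ∈ s, ‖f i - y‖ < 1) : ‖(∏ i ∈ s, f i) - y ^ s.card‖ < 1 ∧ ‖∏ i ∈ s, f i‖ ≤ 1 := by
  induction s using Finset.induction_on with
  | empty => simp
  | insert a s ha ih =>
    obtain ⟨h1, h2⟩ := ih fun i hi => h i (Finset.mem_insert_of_mem hi)
    have ha1 := h a (Finset.mem_insert_self a s)
    have hfa : ‖f a‖ ≤ 1 := by
      have : f a = (f a - y) + y := by ring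
      rw [this]
      exact (IsUltrametricDist.norm_add_le_max _ _).trans (max_le ha1.le hy)
    rw [Finset.prod_insert ha, Finset.card_insert_of_notMem ha]
    constructor
    · have : f a * ∏ i ∈ s, f i - y ^ (s.card + 1)
          = f a * ((∏ i ∈ s, f i) - y ^ s.card) + (f a - y) * y ^ s.card := by ring
      rw [this]
      refine (IsUltrametricDist.norm_add_le_max _ _).trans_lt (max_lt ?_ ?_)
      · rw [norm_mul]
        exact (mul_le_of_le_one_left (norm_nonneg _) hfa).trans_lt h1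
      · rw [norm_mul, norm_pow]
        exact (mul_le_of_le_one_right (norm_nonneg _) (pow_le_one₀ (norm_nonneg _) hy)).trans_lt ha1
    · rw [norm_mul]
      exact mul_le_one₀ hfa (norm_nonneg _) h2

theorem root_norm_le {p : ℕ} (hp : 0 < p) {z z' : Ω} (hz : IsPrimitiveRoot z p)
    (hz' : IsPrimitiveRoot z' p) : ‖z - 1‖ ≤ ‖z' - 1‖ := by
  have : NeZero p := ⟨hp.ne'⟩
  obtain ⟨k, -, rfl⟩ := hz'.eq_pow_of_pow_eq_one hz.pow_eq_one
  have hn : ‖z'‖ = 1 := by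
    have : ‖z'‖ ^ p = 1 := by rw [← norm_pow, hz'.pow_eq_one, norm_one]
    exact (pow_eq_one_iff_of_nonneg (norm_nonneg _) hp.ne').1 this
  rw [← geom_sum_mul, norm_mul]
  refine mul_le_of_le_one_left (norm_nonneg _) ?_
  refine IsUltrametricDist.norm_sum_le_of_forall_le_of_nonneg zero_le_one fun i _ => ?_
  rw [norm_pow, hn, one_pow]

theorem root_norm_eq {p : ℕ} (hp : 0 < p) {z z' : Ω} (hz : IsPrimitiveRoot z p)
    (hz' : IsPrimitiveRoot z' p) : ‖z - 1‖ = ‖z' - 1‖ :=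
  le_antisymm (root_norm_le hp hz hz') (root_norm_le hp hz' hz)

end ultra

section

variable (p : ℕ) [hp : Fact p.Prime] (L : Type) [Field L] [NumberField L]
  [IsCyclotomicExtension {p} ℚ L] [IsGalois ℚ L]

omit [IsGalois ℚ L] in
/-- A basis of the cyclotomic field. -/
noncomputable def basS : Basis (Fin (p - 1)) ℚ L :=
  ((zt_spec p L).subOnePowerBasis ℚ).basis.reindex (finCongr (by
    rw [← PowerBasis.finrank, IsCyclotomicExtension.finrank (n := p) L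
      (cyclotomic.irreducible_rat hp.out.pos), Nat.totient_prime hp.out]))

omit [IsGalois ℚ L] in
theorem basS_apply (i : Fin (p - 1)) : basS p L i = (zt p L - 1) ^ (i : ℕ) := by
  unfold basS
  rw [Basis.reindex_apply, PowerBasis.basis_eq_pow, IsPrimitiveRoot.subOnePowerBasis_gen]
  simp

theorem norm_zt (φ : L →+* PadicAlgCl p) (hp2 : p ≠ 2) :
    ‖φ (zt p L) - 1‖ ^ (p - 1) = (p : ℝ)⁻¹ := by
  have h1 : Algebra.norm ℚ (zt p L - 1) = p := by
    have hz : IsPrimitiveRoot (zt p L) (p ^ (0 + 1)) := by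
      rw [zero_add, pow_one]; exact zt_spec p L
    have : IsCyclotomicExtension {p ^ (0 + 1)} ℚ L := by
      rw [zero_add, pow_one]; infer_instance
    refine hz.norm_sub_one_of_prime_ne_two (p := p) (k := 0) ?_ hp2
    rw [zero_add, pow_one]
    exact cyclotomic.irreducible_rat hp.out.pos
  have h2 := Algebra.norm_eq_prod_automorphisms ℚ (zt p L - 1)
  rw [h1] at h2
  have h3 : ‖φ (algebraMap ℚ L (p : ℚ))‖ = ‖φ (∏ σ : Gal(L/ℚ), σ (zt p L - 1))‖ := by rw [h2]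
  rw [map_prod, norm_prod] at h3
  have h4 (g : Gal(L/ℚ)) : ‖φ (g (zt p L - 1))‖ = ‖φ (zt p L) - 1‖ := by
    rw [map_sub, map_sub, map_one, map_one]
    exact root_norm_eq hp.out.pos
      (((zt_spec p L).map_of_injective g.injective).map_of_injective φ.injective)
      ((zt_spec p L).map_of_injective φ.injective)
  simp_rw [h4] at h3
  rw [Finset.prod_const, Finset.card_univ, card_gal p L] at h3
  rw [← h3]
  have h5 : φ (algebraMap ℚ L (p : ℚ)) = algebraMap ℚ_[p] (PadicAlgCl p) (p : ℚ_[p]) := by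
    simp
  rw [h5, PadicAlgCl.norm_extends, Padic.norm_p]

theorem nm_p (hp2 : p ≠ 2) (w : L ⊗[ℚ] ℚ_[p]) (u : ℚ_[p]) (h : Nm w = 1 ⊗ₜ u) (hu : ‖u‖ = 1) :
    ‖u - 1‖ < 1 := by
  classical
  have hpp := hp.out
  have hp1 : 1 < p := hpp.one_lt
  have hpR : (1 : ℝ) < p := by exact_mod_cast hp1
  -- an embedding
  let φ : L →ₐ[ℚ] PadicAlgCl p := IsAlgClosed.lift
  let ψ : ℚ_[p] →ₐ[ℚ] PadicAlgCl p := (algebraMap ℚ_[p] (PadicAlgCl p)).toRatAlgHom
  have hψ (a : ℚ_[p]) : ‖ψ a‖ = ‖a‖ := PadicAlgCl.norm_extends p a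
  let Φ : L ⊗[ℚ] ℚ_[p] →ₐ[ℚ] PadicAlgCl p := Algebra.TensorProduct.productMap φ ψ
  have hΦ (l : L) (a : ℚ_[p]) : Φ (l ⊗ₜ a) = φ l * ψ a := Algebra.TensorProduct.productMap_apply_tmul _ _ _ _
  set ρ : ℝ := ‖φ (zt p L) - 1‖ with hρ
  have hρp : ρ ^ (p - 1) = (p : ℝ)⁻¹ := norm_zt p L (φ : L →+* PadicAlgCl p) hp2
  have hρ0 : 0 < ρ := by
    refine lt_of_le_of_ne (norm_nonneg _) fun h0 => ?_
    rw [← h0, zero_pow (by omega)] at hρp
    have : (0 : ℝ) < (p : ℝ)⁻¹ := by positivity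
    exact this.ne hρp
  have hρg (g : Gal(L/ℚ)) : ‖φ (g (zt p L)) - 1‖ = ρ :=
    root_norm_eq hpp.pos
      (((zt_spec p L).map_of_injective g.injective).map_of_injective φ.toRingHom.injective)
      ((zt_spec p L).map_of_injective φ.toRingHom.injective)
  -- the expansion
  obtain ⟨c, hc⟩ := TensorProduct.eq_repr_basis_left (basS p L) w
  have hexp (g : Gal(L/ℚ)) : Φ (gAct L ℚ_[p] g w)
      = ∑ i ∈ c.support, (φ (g (zt p L)) - 1) ^ (i : ℕ) * ψ (c i) := by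
    rw [← hc, Finsupp.sum, map_sum, map_sum]
    refine Finset.sum_congr rfl fun i _ => ?_
    rw [gAct_tmul, hΦ, basS_apply, map_pow, map_pow, map_sub, map_sub, map_one, map_one]
  have hterm (g : Gal(L/ℚ)) (i : Fin (p - 1)) :
      ‖(φ (g (zt p L)) - 1) ^ (i : ℕ) * ψ (c i)‖ = ρ ^ (i : ℕ) * ‖c i‖ := by
    rw [norm_mul, norm_pow, hρg, hψ]
  -- the exponents
  have hval (i : Fin (p - 1)) (hi : c i ≠ 0) : ∃ m : ℤ,
      (ρ ^ (i : ℕ) * ‖c i‖) ^ (p - 1) = (p : ℝ) ^ (m * ((p : ℤ) - 1) - (i : ℕ)) := by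
    refine ⟨-(c i).valuation, ?_⟩
    rw [mul_pow, ← pow_mul, mul_comm (i : ℕ), pow_mul, hρp, Padic.norm_eq_zpow_neg_valuation hi,
      zpow_sub₀ (by positivity), zpow_mul, zpow_natCast, inv_pow, div_eq_inv_mul]
    congr 1
    rw [← zpow_natCast]
    congr 1
    have : 1 ≤ p := hp1.le
    push_cast [Nat.cast_sub this]
    rfl
  have hdist (i j : Fin (p - 1)) (hi : c i ≠ 0) (hj : c j ≠ 0)
      (hij : ρ ^ (i : ℕ) * ‖c i‖ = ρ ^ (j : ℕ) * ‖c j‖) : i = j := by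
    obtain ⟨m, hm⟩ := hval i hi
    obtain ⟨n, hn⟩ := hval j hj
    rw [hij, hn] at hm
    have h1 := zpow_right_injective₀ (by positivity) hpR.ne' hm
    have h2 : ((p : ℤ) - 1) ∣ ((i : ℕ) : ℤ) - (j : ℕ) := ⟨m - n, by linarith⟩
    have hi2 := i.2
    have hj2 := j.2
    have h3 : ((i : ℕ) : ℤ) - (j : ℕ) = 0 := by
      apply Int.eq_zero_of_abs_lt_dvd h2
      rw [abs_lt]
      constructor <;> omega
    exact Fin.ext (by omega)
  -- nonzero
  have hprod : ∏ g : Gal(L/ℚ), ‖Φ (gAct L ℚ_[p] g w)‖ = 1 := by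
    have h1 : ‖Φ (Nm w)‖ = ‖Φ (1 ⊗ₜ u)‖ := by rw [h]
    unfold Nm at h1
    rw [map_prod, norm_prod, hΦ, map_one, one_mul, hψ, hu] at h1
    exact h1
  have hne : c.support.Nonempty := by
    by_contra h0
    rw [Finset.not_nonempty_iff_eq_empty] at h0
    have h1 (g : Gal(L/ℚ)) : ‖Φ (gAct L ℚ_[p] g w)‖ = 0 := by
      rw [hexp, h0, Finset.sum_empty, norm_zero]
    rw [Finset.prod_eq_zero (Finset.mem_univ 1) (h1 1)] at hprod
    exact zero_ne_one hprod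
  obtain ⟨i0, hi0, hmax⟩ := Finset.exists_max_image c.support (fun i => ρ ^ (i : ℕ) * ‖c i‖) hne
  have hi0' : c i0 ≠ 0 := Finsupp.mem_support_iff.1 hi0
  have hM0 : 0 < ρ ^ (i0 : ℕ) * ‖c i0‖ := by
    have : 0 < ‖c i0‖ := norm_pos_iff.2 hi0'
    positivity
  have hlt : ∀ i ∈ c.support, i ≠ i0 → ρ ^ (i : ℕ) * ‖c i‖ < ρ ^ (i0 : ℕ) * ‖c i0‖ := by
    intro i hi hne
    refine lt_of_le_of_ne (hmax i hi) fun h1 => hne ?_
    exact hdist i i0 (Finsupp.mem_support_iff.1 hi) hi0' h1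
  have hclose (g : Gal(L/ℚ)) :
      ‖Φ (gAct L ℚ_[p] g w) - (φ (g (zt p L)) - 1) ^ (i0 : ℕ) * ψ (c i0)‖
        < ρ ^ (i0 : ℕ) * ‖c i0‖ := by
    rw [hexp, ← hterm g i0]
    refine ultra_sum c.support (fun i => (φ (g (zt p L)) - 1) ^ (i : ℕ) * ψ (c i)) i0 hi0 ?_ ?_
    · rw [hterm]; exact hM0
    · intro i hi hne
      rw [hterm, hterm]
      exact hlt i hi hne
  have hnorm (g : Gal(L/ℚ)) : ‖Φ (gAct L ℚ_[p] g w)‖ = ρ ^ (i0 : ℕ) * ‖c i0‖ := by
    rw [← hterm g i0]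
    apply ultra_eq
    rw [hterm]
    exact hclose g
  have hM1 : (ρ ^ (i0 : ℕ) * ‖c i0‖) ^ (p - 1) = 1 := by
    simp_rw [hnorm] at hprod
    rw [Finset.prod_const, Finset.card_univ, card_gal p L] at hprod
    exact hprod
  have hi00 : (i0 : ℕ) = 0 := by
    obtain ⟨m, hm⟩ := hval i0 hi0'
    rw [hM1, ← zpow_zero (p : ℝ)] at hm
    have h1 := zpow_right_injective₀ (by positivity) hpR.ne' hm
    have h2 : ((p : ℤ) - 1) ∣ ((i0 : ℕ) : ℤ) := ⟨m, by linarith⟩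
    have hi2 := i0.2
    have h3 : ((i0 : ℕ) : ℤ) = 0 := by
      apply Int.eq_zero_of_abs_lt_dvd h2
      rw [abs_lt]
      constructor <;> omega
    exact_mod_cast h3
  have hc1 : ‖c i0‖ = 1 := by
    rw [hi00, pow_zero, one_mul] at hM1
    exact (pow_eq_one_iff_of_nonneg (norm_nonneg _) (by omega)).1 hM1
  have hclose' (g : Gal(L/ℚ)) : ‖Φ (gAct L ℚ_[p] g w) - ψ (c i0)‖ < 1 := by
    have := hclose g
    rw [hi00, pow_zero, one_mul, pow_zero, one_mul, hc1] at this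
    exact this
  obtain ⟨h1, -⟩ := ultra_prod (Finset.univ : Finset Gal(L/ℚ)) (fun g => Φ (gAct L ℚ_[p] g w))
    (ψ (c i0)) (by rw [hψ, hc1]) (fun g _ => hclose' g)
  rw [Finset.card_univ, card_gal p L] at h1
  have h2 : ∏ g : Gal(L/ℚ), Φ (gAct L ℚ_[p] g w) = ψ u := by
    have h1 := congrArg Φ h
    unfold Nm at h1
    rw [map_prod, hΦ, map_one, one_mul] at h1
    exact h1
  rw [h2, ← map_pow, ← map_sub, hψ] at h1
  -- Fermat
  have h3 : ‖c i0 ^ (p - 1) - 1‖ < 1 := by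
    let a : ℤ_[p] := ⟨c i0, hc1.le⟩
    have ha : PadicInt.toZMod a ≠ 0 := by
      intro h
      rw [← RingHom.mem_ker, PadicInt.ker_toZMod, IsLocalRing.mem_maximalIdeal, mem_nonunits_iff,
        PadicInt.isUnit_iff] at h
      exact h hc1
    have h4 : (a ^ (p - 1) - 1) ∈ RingHom.ker (PadicInt.toZMod (p := p)) := by
      rw [RingHom.mem_ker, map_sub, map_one, map_pow, ZMod.pow_card_sub_one_eq_one ha, sub_self]
    rw [PadicInt.ker_toZMod, IsLocalRing.mem_maximalIdeal, PadicInt.mem_nonunits] at h4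
    exact h4
  have h5 : u - 1 = (u - c i0 ^ (p - 1)) + (c i0 ^ (p - 1) - 1) := by ring
  rw [h5]
  exact (IsUltrametricDist.norm_add_le_max _ _).trans_lt (max_lt h1 h3)

end

end Pool.Agent.W620.SB
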