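import Pool.Agent.W620.SB.CPCyc
import Pool.Agent.W620.SB.NmP

/-! # Cyclic algebras from cyclotomic extensions -/

set_option autoImplicit false
set_option linter.unusedSectionVars false

open Module TensorProduct Polynomial

namespace Pool.Agent.W620.SB

section

variable (R : Type) [CommRing R] [Algebra ℚ R] (L : Type) [Field L] [NumberField L]
  [DecidableEq Gal(L/ℚ)]

/-- The action of the Galois group on `R ⊗ L`. -/
noncomputable def galR : Gal(L/ℚ) →* (R ⊗[ℚ] L ≃ₐ[R] R ⊗[ℚ] L) where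
  toFun g := Algebra.TensorProduct.congr AlgEquiv.refl g
  map_one' := by
    ext x
    induction x using TensorProduct.induction_on with
    | zero => simp
    | tmul r l => rfl
    | add x y hx hy => rw [map_add, map_add, hx, hy]
  map_mul' g h := by
    ext x
    induction x using TensorProduct.induction_on with
    | zero => simp
    | tmul r l => rfl
    | add x y hx hy => rw [map_add, map_add, hx, hy]

theorem galR_tmul (g : Gal(L/ℚ)) (r : R) (l : L) : galR R L g (r ⊗ₜ l) = r ⊗ₜ (g l) := rfl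

/-- The interpolation polynomial. -/
noncomputable def intP (α : L) : L[X] :=
  ∏ g ∈ (Finset.univ : Finset Gal(L/ℚ)).erase 1, (C ((α - g α)⁻¹) * (X - C (g α)))

theorem eval_intP (α : L) (hα : ∀ g : Gal(L/ℚ), g α = α → g = 1) (h : Gal(L/ℚ)) :
    (intP L α).eval (h α) = if h = 1 then 1 else 0 := by
  unfold intP
  rw [eval_prod]
  split_ifs with h1
  · subst h1
    refine Finset.prod_eq_one fun g hg => ?_
    have hg1 : g ≠ 1 := (Finset.mem_erase.1 hg).1
    have h2 : α - g α ≠ 0 := fun h3 => hg1 (hα g (sub_eq_zero.1 h3).symm)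
    simp [h2]
  · refine Finset.prod_eq_zero (Finset.mem_erase.2 ⟨h1, Finset.mem_univ h⟩) ?_
    simp

theorem gal_xy (α : L) (hα : ∀ g : Gal(L/ℚ), g α = α → g = 1) (g : Gal(L/ℚ)) :
    ∑ i : Fin ((intP L α).natDegree + 1), ((1 : R) ⊗ₜ[ℚ] (intP L α).coeff i) *
      galR R L g ((1 : R) ⊗ₜ[ℚ] (α ^ (i : ℕ))) = if g = 1 then 1 else 0 := by
  have h1 (i : Fin ((intP L α).natDegree + 1)) : ((1 : R) ⊗ₜ[ℚ] (intP L α).coeff i) *
      galR R L g ((1 : R) ⊗ₜ[ℚ] (α ^ (i : ℕ)))
      = (1 : R) ⊗ₜ[ℚ] ((intP L α).coeff i * (g α) ^ (i : ℕ)) := by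
    rw [galR_tmul, Algebra.TensorProduct.tmul_mul_tmul, one_mul, map_pow]
  simp_rw [h1]
  rw [← TensorProduct.tmul_sum]
  have h2 := Polynomial.eval_eq_sum_range (p := intP L α) (g α)
  rw [Fin.sum_univ_eq_sum_range (fun i => (intP L α).coeff i * (g α) ^ i), ← h2, eval_intP L α hα]
  split_ifs
  · rfl
  · rw [TensorProduct.tmul_zero]

theorem gal_tr [IsGalois ℚ L] (s : R ⊗[ℚ] L) :
    ∃ r : R, ∑ g, galR R L g s = algebraMap R (R ⊗[ℚ] L) r := by
  induction s using TensorProduct.induction_on with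
  | zero => exact ⟨0, by simp⟩
  | tmul r l =>
    refine ⟨algebraMap ℚ R (Algebra.trace ℚ L l) * r, ?_⟩
    simp_rw [galR_tmul]
    rw [← TensorProduct.tmul_sum, ← trace_eq_sum_automorphisms, Algebra.algebraMap_eq_smul_one,
      ← TensorProduct.smul_tmul, Algebra.TensorProduct.algebraMap_apply, Algebra.smul_def]
    rfl
  | add x y hx hy =>
    obtain ⟨r, hr⟩ := hx
    obtain ⟨t, ht⟩ := hy
    refine ⟨r + t, ?_⟩
    simp_rw [map_add]
    rw [Finset.sum_add_distrib, hr, ht]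


theorem isAzumaya_cyc [IsGalois ℚ L] [Nontrivial R] (Cy : CycG Gal(L/ℚ)) (u : Rˣ) (α : L)
    (hα : ∀ g : Gal(L/ℚ), g α = α → g = 1) : IsAzumaya R (CP (cycCoc Cy (galR R L) u)) := by
  have : Nontrivial (R ⊗[ℚ] L) := by
    have : Module.Free ℚ L := inferInstance
    have h : Module.finrank R (R ⊗[ℚ] L) = Module.finrank ℚ L := Module.finrank_baseChange
    have h2 : 0 < Module.finrank R (R ⊗[ℚ] L) := by rw [h]; exact Module.finrank_pos
    exact Module.nontrivial_of_finrank_pos h2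
  exact isAzumaya_CP (cycCoc Cy (galR R L) u)
    (fun i : Fin ((intP L α).natDegree + 1) => (1 : R) ⊗ₜ[ℚ] (intP L α).coeff i)
    (fun i => (1 : R) ⊗ₜ[ℚ] (α ^ (i : ℕ))) (gal_xy R L α hα) (gal_tr R L)

theorem baseChange_cyc [Nontrivial R] (K : Type) [Field K] [Algebra ℚ K] [Algebra R K]
    (Cy : CycG Gal(L/ℚ)) (u : Rˣ) (v : Kˣ) (huv : (v : K) = algebraMap R K u) :
    Nonempty (K ⊗[R] CP (cycCoc Cy (galR R L) u) ≃ₐ[K] CP (cycCoc Cy (galR K L) v)) := by
  let f : R →ₐ[ℚ] K := (algebraMap R K).toRatAlgHom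
  let ρ : R ⊗[ℚ] L →ₐ[ℚ] K ⊗[ℚ] L := Algebra.TensorProduct.map f (AlgHom.id ℚ L)
  refine baseChange_equiv (cycCoc Cy (galR R L) u) (cycCoc Cy (galR K L) v) ρ.toRingHom ?_ ?_ ?_ ?_ ?_
  · intro r
    rfl
  · intro g s
    change ρ (galR R L g s) = galR K L g (ρ s)
    induction s using TensorProduct.induction_on with
    | zero => simp
    | tmul r l => rfl
    | add x y hx hy => rw [map_add, map_add, hx, hy, map_add, map_add]
  · intro g h
    change ((v ^ Cy.carry g h : Kˣ) : K) = algebraMap R K ((u ^ Cy.carry g h : Rˣ) : R)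
    rw [Units.val_pow_eq_pow_val, Units.val_pow_eq_pow_val, map_pow, huv]
  · rw [Module.finrank_baseChange, Module.finrank_baseChange]
  · rw [eq_top_iff]
    rintro s -
    induction s using TensorProduct.induction_on with
    | zero => exact Submodule.zero_mem _
    | tmul k l =>
      have h1 : (k ⊗ₜ[ℚ] l : K ⊗[ℚ] L) = k • ρ.toRingHom (1 ⊗ₜ l) := by
        change _ = k • (f 1 ⊗ₜ[ℚ] l)
        rw [map_one, TensorProduct.smul_tmul', smul_eq_mul, mul_one]
      rw [h1]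
      exact Submodule.smul_mem _ _ (Submodule.subset_span ⟨_, rfl⟩)
    | add x y hx hy => exact Submodule.add_mem _ hx hy

variable {R}

theorem comm_Nm (K : Type) [CommRing K] [Algebra ℚ K] (w : L ⊗[ℚ] K) :
    ∏ g, galR K L g (Algebra.TensorProduct.comm ℚ L K w)
      = Algebra.TensorProduct.comm ℚ L K (Nm w) := by
  unfold Nm
  rw [map_prod]
  refine Finset.prod_congr rfl fun g _ => ?_
  induction w using TensorProduct.induction_on with
  | zero => simp
  | tmul l k => rfl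
  | add x y hx hy => rw [map_add, map_add, hx, hy, map_add, map_add]

theorem isSplit_cyc [IsGalois ℚ L] (K : Type) [Field K] [Algebra ℚ K] (Cy : CycG Gal(L/ℚ)) (v : Kˣ)
    (α : L) (hα : ∀ g : Gal(L/ℚ), g α = α → g = 1) (w : L ⊗[ℚ] K) (hw : Nm w = 1 ⊗ₜ (v : K)) :
    IsSplit K (CP (cycCoc Cy (galR K L) v)) := by
  let w' : K ⊗[ℚ] L := Algebra.TensorProduct.comm ℚ L K w
  have h1 : ∏ g, galR K L g w' = algebraMap K (K ⊗[ℚ] L) v := by
    rw [comm_Nm, hw]
    rfl
  have h2 : IsUnit w' := by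
    have h3 : IsUnit (∏ g, galR K L g w') := by
      rw [h1]
      exact v.isUnit.map _
    rw [← Finset.mul_prod_erase Finset.univ _ (Finset.mem_univ 1)] at h3
    exact isUnit_of_mul_isUnit_left (by rw [map_one] at h3; exact h3)
  obtain ⟨W, hW⟩ := h2
  obtain ⟨b, hb⟩ := coboundary_of_norm Cy (galR K L) v W (by rw [hW]; exact h1)
  refine isSplit_of_coboundary (cycCoc Cy (galR K L) v)
    (fun i : Fin ((intP L α).natDegree + 1) => (1 : K) ⊗ₜ[ℚ] (intP L α).coeff i)
    (fun i => (1 : K) ⊗ₜ[ℚ] (α ^ (i : ℕ))) (gal_xy K L α hα) (gal_tr K L) ?_ b hb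
  rw [Module.finrank_baseChange, ← IsGalois.card_aut_eq_finrank, Nat.card_eq_fintype_card]

theorem norm_cyc [IsGalois ℚ L] (K : Type) [Field K] [Algebra ℚ K] (Cy : CycG Gal(L/ℚ)) (v : Kˣ)
    (hcard : 1 < Fintype.card Gal(L/ℚ)) (hfield : ∀ s : K ⊗[ℚ] L, s ≠ 0 → IsUnit s)
    (h : IsSplit K (CP (cycCoc Cy (galR K L) v))) : ∃ w : L ⊗[ℚ] K, Nm w = 1 ⊗ₜ (v : K) := by
  obtain ⟨β, hβ⟩ := norm_of_isSplit Cy (galR K L) v hcard
    (by rw [Module.finrank_baseChange, ← IsGalois.card_aut_eq_finrank, Nat.card_eq_fintype_card])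
    hfield h
  refine ⟨(Algebra.TensorProduct.comm ℚ L K).symm β, ?_⟩
  apply (Algebra.TensorProduct.comm ℚ L K).injective
  rw [← comm_Nm, AlgEquiv.apply_symm_apply, hβ]
  rfl

end

end Pool.Agent.W620.SB
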