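import Mathlib

/-! # Crossed product algebras -/

set_option autoImplicit false
set_option linter.unusedSectionVars false

open Module TensorProduct

namespace Pool.Agent.W620.SB

/-- An action of the group `G` on the `R`-algebra `S` and a normalised 2-cocycle with values in the
units of `R`. -/
structure Coc (G R S : Type) [Group G] [CommRing R] [CommRing S] [Algebra R S] where
  /-- the action -/
  act : G →* (S ≃ₐ[R] S)
  /-- the cocycle -/
  c : G → G → Rˣ
  one_left : ∀ g, c 1 g = 1
  one_right : ∀ g, c g 1 = 1
  assoc : ∀ a b d, c a b * c (a * b) d = c b d * c a (b * d)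

section

variable {G R S : Type} [Group G] [Fintype G] [DecidableEq G] [CommRing R] [CommRing S]
  [Algebra R S] (D : Coc G R S)

/-- The crossed product algebra: the free `S`-module with basis `e g`, `g` in `G`, and the
multiplication `(s e g) (t e h) = c(g, h) s g(t) e (g h)`. -/
def CP (_D : Coc G R S) : Type := G → S

noncomputable instance : AddCommGroup (CP D) := inferInstanceAs (AddCommGroup (G → S))

noncomputable instance : Module R (CP D) := inferInstanceAs (Module R (G → S))

/-- The element `s e g`. -/
def sgl (g : G) (s : S) : CP D := (Pi.single g s : G → S)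

theorem sgl_apply (g : G) (s : S) (k : G) : (sgl D g s : G → S) k = if k = g then s else 0 :=
  Pi.single_apply _ _ _

theorem CP_ext {x y : CP D} (h : ∀ k, (x : G → S) k = (y : G → S) k) : x = y := funext h

theorem sum_sgl (x : CP D) : ∑ g, sgl D g ((x : G → S) g) = x := by
  refine CP_ext D fun k => ?_
  have := Finset.univ_sum_single (x : G → S)
  exact congrFun this k

theorem add_apply (x y : CP D) (k : G) : (x + y : CP D) k = (x : G → S) k + (y : G → S) k := rfl

theorem smul_apply (r : R) (x : CP D) (k : G) : (r • x : CP D) k = r • (x : G → S) k := rfl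

theorem sgl_add (g : G) (s t : S) : sgl D g (s + t) = sgl D g s + sgl D g t := by
  refine CP_ext D fun k => ?_
  rw [add_apply, sgl_apply, sgl_apply, sgl_apply]
  split_ifs <;> simp

theorem sgl_zero (g : G) : sgl D g 0 = 0 := by
  refine CP_ext D fun k => ?_
  rw [sgl_apply]
  split_ifs <;> rfl

theorem sgl_smul (g : G) (r : R) (s : S) : sgl D g (r • s) = r • sgl D g s := by
  refine CP_ext D fun k => ?_
  rw [smul_apply, sgl_apply, sgl_apply]
  split_ifs <;> simp

theorem sgl_sum {ι : Type} (g : G) (I : Finset ι) (f : ι → S) :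
    sgl D g (∑ i ∈ I, f i) = ∑ i ∈ I, sgl D g (f i) := by
  classical
  induction I using Finset.induction_on with
  | empty => simp [sgl_zero]
  | insert a I ha ih => rw [Finset.sum_insert ha, Finset.sum_insert ha, sgl_add, ih]

noncomputable instance : Mul (CP D) where
  mul x y := (fun k => ∑ g, (D.c g (g⁻¹ * k) : R) • ((x : G → S) g * D.act g ((y : G → S) (g⁻¹ * k)))
    : G → S)

theorem mul_apply (x y : CP D) (k : G) : (x * y : CP D) k
    = ∑ g, (D.c g (g⁻¹ * k) : R) • ((x : G → S) g * D.act g ((y : G → S) (g⁻¹ * k))) := rfl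

instance : One (CP D) where
  one := sgl D 1 1

theorem one_def : (1 : CP D) = sgl D 1 1 := rfl

theorem assoc' (a b d : G) : (D.c a b : R) * D.c (a * b) d = D.c b d * D.c a (b * d) := by
  have := congrArg Units.val (D.assoc a b d)
  simpa using this

theorem CP_mul_assoc (x y z : CP D) : x * y * z = x * (y * z) := by
  refine CP_ext D fun k => ?_
  rw [mul_apply, mul_apply]
  simp_rw [mul_apply, map_sum, map_smul, map_mul, Finset.mul_sum, Finset.sum_mul, Finset.smul_sum]
  rw [Finset.sum_comm]
  refine Finset.sum_congr rfl fun b _ => ?_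
  rw [← Equiv.sum_comp (Equiv.mulLeft b)]
  refine Finset.sum_congr rfl fun d _ => ?_
  simp only [Equiv.coe_mulLeft]
  have h1 : b⁻¹ * (b * d) = d := by group
  have h2 : (b * d)⁻¹ * k = d⁻¹ * (b⁻¹ * k) := by group
  rw [h1, h2]
  have h3 := assoc' D b d (d⁻¹ * (b⁻¹ * k))
  have h4 : d * (d⁻¹ * (b⁻¹ * k)) = b⁻¹ * k := by group
  rw [h4] at h3
  have h5 : ∀ s : S, D.act (b * d) s = D.act b (D.act d s) := by
    intro s
    rw [map_mul]
    rfl
  rw [h5]
  simp only [Algebra.smul_mul_assoc, Algebra.mul_smul_comm, smul_smul]
  rw [mul_comm (D.c (b * d) _ : R), h3, mul_comm (D.c d _ : R), mul_assoc ((x : G → S) b)]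

theorem CP_one_mul (x : CP D) : 1 * x = x := by
  refine CP_ext D fun k => ?_
  rw [mul_apply, Finset.sum_eq_single 1]
  · rw [one_def, sgl_apply, if_pos rfl, one_mul, inv_one, one_mul, D.one_left, map_one]
    simp
  · intro g _ hg
    rw [one_def, sgl_apply, if_neg hg, zero_mul, smul_zero]
  · intro h; exact absurd (Finset.mem_univ 1) h

theorem CP_mul_one (x : CP D) : x * 1 = x := by
  refine CP_ext D fun k => ?_
  rw [mul_apply, Finset.sum_eq_single k]
  · rw [one_def, sgl_apply, inv_mul_cancel, if_pos rfl, D.one_right, map_one]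
    simp
  · intro g _ hg
    rw [one_def, sgl_apply, if_neg, map_zero, mul_zero, smul_zero]
    intro h
    exact hg (inv_mul_eq_one.1 h)
  · intro h; exact absurd (Finset.mem_univ k) h

noncomputable instance : Ring (CP D) where
  __ := (inferInstance : AddCommGroup (CP D))
  mul_assoc := CP_mul_assoc D
  one_mul := CP_one_mul D
  mul_one := CP_mul_one D
  left_distrib x y z := by
    refine CP_ext D fun k => ?_
    simp only [mul_apply, add_apply, map_add, mul_add, smul_add, Finset.sum_add_distrib]
  right_distrib x y z := by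
    refine CP_ext D fun k => ?_
    simp only [mul_apply, add_apply, add_mul, smul_add, Finset.sum_add_distrib]
  zero_mul x := by
    refine CP_ext D fun k => ?_
    have h : ∀ g, ((0 : CP D) : G → S) g = 0 := fun _ => rfl
    simp only [mul_apply, h, zero_mul, smul_zero, Finset.sum_const_zero]
  mul_zero x := by
    refine CP_ext D fun k => ?_
    have h : ∀ g, ((0 : CP D) : G → S) g = 0 := fun _ => rfl
    simp only [mul_apply, h, map_zero, mul_zero, smul_zero, Finset.sum_const_zero]

theorem sgl_mul (g h : G) (s t : S) :
    sgl D g s * sgl D h t = sgl D (g * h) ((D.c g h : R) • (s * D.act g t)) := by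
  refine CP_ext D fun k => ?_
  rw [mul_apply, Finset.sum_eq_single g]
  · rw [sgl_apply, if_pos rfl, sgl_apply, sgl_apply]
    by_cases hk : k = g * h
    · have h1 : g⁻¹ * k = h := by rw [hk]; group
      rw [if_pos h1, if_pos hk, h1]
    · have h1 : g⁻¹ * k ≠ h := fun h1 => hk (by rw [← h1]; group)
      rw [if_neg h1, if_neg hk, map_zero, mul_zero, smul_zero]
  · intro a _ ha
    rw [sgl_apply, if_neg ha, zero_mul, smul_zero]
  · intro h; exact absurd (Finset.mem_univ g) h

noncomputable instance : Algebra R (CP D) := Algebra.ofModule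
  (by
    intro r x y
    refine CP_ext D fun k => ?_
    simp only [mul_apply, smul_apply, Finset.smul_sum, Algebra.smul_mul_assoc]
    refine Finset.sum_congr rfl fun g _ => ?_
    rw [smul_comm])
  (by
    intro r x y
    refine CP_ext D fun k => ?_
    simp only [mul_apply, smul_apply, Finset.smul_sum, map_smul, Algebra.mul_smul_comm]
    refine Finset.sum_congr rfl fun g _ => ?_
    rw [smul_comm])

end

end Pool.Agent.W620.SB
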