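import Pool.Agent.W620.SB.CP

/-! # Crossed product algebras of Galois extensions are Azumaya -/

set_option autoImplicit false
set_option linter.unusedSectionVars false

open Module TensorProduct

namespace Pool.Agent.W620.SB

section

variable {G R S : Type} [Group G] [Fintype G] [DecidableEq G] [CommRing R] [CommRing S]
  [Algebra R S] (D : Coc G R S)

/-- The projection to a component. -/
noncomputable def proj (k : G) : Module.End R (CP D) where
  toFun z := sgl D k ((z : G → S) k)
  map_add' z w := by rw [add_apply, sgl_add]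
  map_smul' r z := by rw [smul_apply, sgl_smul]; rfl

theorem proj_apply (k : G) (z : CP D) : proj D k z = sgl D k ((z : G → S) k) := rfl

theorem sum_proj : ∑ k, proj D k = 1 := by
  ext z
  rw [LinearMap.sum_apply]
  exact sum_sgl D z

theorem act_mul_apply (g h : G) (s : S) : D.act (g * h) s = D.act g (D.act h s) := by
  rw [map_mul]; rfl

variable {ι : Type} [Fintype ι] (x y : ι → S)
  (hxy : ∀ g, ∑ i, x i * D.act g (y i) = if g = 1 then 1 else 0)
  (htr : ∀ s, ∃ r : R, ∑ g, D.act g s = algebraMap R S r)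

include hxy in
theorem proj_mem (k : G) : proj D k ∈ (AlgHom.mulLeftRight R (CP D)).range := by
  refine ⟨∑ i, sgl D 1 (x i) ⊗ₜ MulOpposite.op (sgl D 1 (D.act k⁻¹ (y i))), ?_⟩
  ext z
  change (AlgHom.mulLeftRight R (CP D) _) z = _
  rw [map_sum, LinearMap.sum_apply]
  simp_rw [AlgHom.mulLeftRight_apply, MulOpposite.unop_op]
  have h1 (i : ι) : sgl D 1 (x i) * z * sgl D 1 (D.act k⁻¹ (y i))
      = ∑ h, sgl D h ((z : G → S) h * (x i * D.act (h * k⁻¹) (y i))) := by
    conv_lhs => rw [← sum_sgl D z]
    rw [Finset.mul_sum, Finset.sum_mul]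
    refine Finset.sum_congr rfl fun h _ => ?_
    rw [sgl_mul, sgl_mul, one_mul, mul_one, D.one_left, D.one_right, Units.val_one, one_smul,
      one_smul, map_one, act_mul_apply]
    congr 1
    change x i * (z : G → S) h * _ = _
    ring
  simp_rw [h1]
  rw [Finset.sum_comm]
  have h2 (h : G) : ∑ i, sgl D h ((z : G → S) h * (x i * D.act (h * k⁻¹) (y i)))
      = if h = k then sgl D k ((z : G → S) k) else 0 := by
    rw [← sgl_sum, ← Finset.mul_sum, hxy]
    by_cases hk : h = k
    · rw [if_pos (by rw [hk]; group), if_pos hk, mul_one, hk]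
    · rw [if_neg (fun h1 => hk (mul_inv_eq_one.1 h1)), if_neg hk, mul_zero, sgl_zero]
  simp_rw [h2]
  rw [Finset.sum_ite_eq' Finset.univ k, if_pos (Finset.mem_univ k), proj_apply]

include hxy htr in
theorem end_formula (τ : S →ₗ[R] S) (s : S) :
    τ s = ∑ g, (∑ i, D.act g (x i) * τ (y i)) * D.act g s := by
  choose tr htr using htr
  have h1 : ∑ i, tr (s * x i) • y i = s := by
    have h2 (i : ι) : tr (s * x i) • y i = ∑ g, D.act g s * (D.act g (x i) * y i) := by
      rw [Algebra.smul_def, ← htr, Finset.sum_mul]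
      refine Finset.sum_congr rfl fun g _ => ?_
      rw [map_mul]; ring
    simp_rw [h2]
    rw [Finset.sum_comm]
    have h3 (g : G) : ∑ i, D.act g s * (D.act g (x i) * y i) = if g = 1 then s else 0 := by
      rw [← Finset.mul_sum]
      have h4 : ∑ i, D.act g (x i) * y i = D.act g (∑ i, x i * D.act g⁻¹ (y i)) := by
        rw [map_sum]
        refine Finset.sum_congr rfl fun i _ => ?_
        rw [map_mul, ← act_mul_apply, mul_inv_cancel, map_one]
        rfl
      rw [h4, hxy]
      by_cases hg : g = 1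
      · rw [hg]
        simp
      · rw [if_neg (fun h => hg (inv_eq_one.1 h)), if_neg hg, map_zero, mul_zero]
    simp_rw [h3]
    rw [Finset.sum_ite_eq' Finset.univ 1, if_pos (Finset.mem_univ 1)]
  conv_lhs => rw [← h1]
  rw [map_sum]
  have h5 (i : ι) : τ (tr (s * x i) • y i) = ∑ g, D.act g (x i) * τ (y i) * D.act g s := by
    rw [map_smul, Algebra.smul_def, ← htr, Finset.sum_mul]
    refine Finset.sum_congr rfl fun g _ => ?_
    rw [map_mul]; ring
  simp_rw [h5]
  rw [Finset.sum_comm]
  refine Finset.sum_congr rfl fun g _ => ?_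
  rw [Finset.sum_mul]

include hxy htr in
theorem block_mem (T : Module.End R (CP D)) (k l : G) :
    proj D l * T * proj D k ∈ (AlgHom.mulLeftRight R (CP D)).range := by
  let τ : S →ₗ[R] S :=
    { toFun := fun s => (T (sgl D k s) : G → S) l
      map_add' := fun s t => by rw [sgl_add, map_add, add_apply]
      map_smul' := fun r s => by rw [sgl_smul, map_smul, smul_apply]; rfl }
  let t : G → S := fun g => ∑ i, D.act g (x i) * τ (y i)
  let h : G → G := fun g => (g * k)⁻¹ * l
  have hL (g : G) : ∃ φ ∈ (AlgHom.mulLeftRight R (CP D)).range, ∀ z,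
      φ z = sgl D g (((((D.c g k)⁻¹ * (D.c (g * k) (h g))⁻¹ : Rˣ) : R)) • t g) * z * sgl D (h g) 1 :=
    ⟨_, ⟨sgl D g _ ⊗ₜ MulOpposite.op (sgl D (h g) 1), rfl⟩, fun z => by
      change (AlgHom.mulLeftRight R (CP D) _) z = _
      rw [AlgHom.mulLeftRight_apply, MulOpposite.unop_op]⟩
  choose φ hφ1 hφ2 using hL
  have h1 : proj D l * T * proj D k = ∑ g, φ g * proj D k := by
    ext z
    rw [LinearMap.sum_apply]
    change sgl D l (τ ((z : G → S) k)) = ∑ g, φ g (sgl D k ((z : G → S) k))
    rw [end_formula D x y hxy htr τ, sgl_sum]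
    refine Finset.sum_congr rfl fun g _ => ?_
    rw [hφ2, sgl_mul, sgl_mul, map_one, mul_one, smul_mul_assoc, smul_smul, smul_smul]
    have h2 : g * k * h g = l := by
      change g * k * ((g * k)⁻¹ * l) = l
      group
    rw [h2]
    have h3 : ((D.c (g * k) (h g) : R) * ((D.c g k : R) * (((D.c g k)⁻¹ * (D.c (g * k) (h g))⁻¹ : Rˣ) : R)))
        = 1 := by
      rw [← Units.val_mul, ← Units.val_mul]
      have : D.c (g * k) (h g) * (D.c g k * ((D.c g k)⁻¹ * (D.c (g * k) (h g))⁻¹)) = 1 := by group
      rw [this, Units.val_one]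
    rw [mul_assoc (D.c (g * k) (h g) : R), h3, one_smul]
  rw [h1]
  exact Subalgebra.sum_mem _ fun g _ => Subalgebra.mul_mem _ (hφ1 g) (proj_mem D x y hxy k)

include hxy htr in
theorem mulLeftRight_surjective : Function.Surjective (AlgHom.mulLeftRight R (CP D)) := by
  intro T
  have h1 : T ∈ (AlgHom.mulLeftRight R (CP D)).range := by
    have h2 : T = ∑ k, ∑ l, proj D l * T * proj D k := by
      have h3 : T = (∑ l, proj D l) * T * (∑ k, proj D k) := by
        rw [sum_proj, one_mul, mul_one]
      conv_lhs => rw [h3]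
      rw [Finset.mul_sum]
      refine Finset.sum_congr rfl fun k _ => ?_
      rw [Finset.sum_mul, Finset.sum_mul]
    rw [h2]
    exact Subalgebra.sum_mem _ fun k _ => Subalgebra.sum_mem _ fun l _ =>
      block_mem D x y hxy htr T k l
  exact h1

instance [Module.Free R S] [Module.Finite R S] : Module.Free R (CP D) := by
  exact inferInstanceAs (Module.Free R (G → S))

instance [Module.Finite R S] : Module.Finite R (CP D) :=
  inferInstanceAs (Module.Finite R (G → S))

include hxy htr in
theorem isAzumaya_CP [Nontrivial R] [Nontrivial S] [Module.Free R S] [Module.Finite R S] :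
    IsAzumaya R (CP D) where
  toFaithfulSMul := by
    have : Nontrivial (CP D) := inferInstanceAs (Nontrivial (G → S))
    infer_instance
  bij := by
    have hs := mulLeftRight_surjective D x y hxy htr
    have hfr : Module.finrank R (CP D ⊗[R] (CP D)ᵐᵒᵖ) = Module.finrank R (Module.End R (CP D)) := by
      rw [Module.finrank_tensorProduct, Module.finrank_linearMap]
      congr 1
      exact (MulOpposite.opLinearEquiv R : CP D ≃ₗ[R] (CP D)ᵐᵒᵖ).finrank_eq.symm
    have : Module.Free R (CP D)ᵐᵒᵖ := Module.Free.of_equiv (MulOpposite.opLinearEquiv R : CP D ≃ₗ[R] (CP D)ᵐᵒᵖ)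
    have : Module.Finite R (CP D)ᵐᵒᵖ := Module.Finite.equiv (MulOpposite.opLinearEquiv R : CP D ≃ₗ[R] (CP D)ᵐᵒᵖ)
    let e : Module.End R (CP D) ≃ₗ[R] (CP D ⊗[R] (CP D)ᵐᵒᵖ) :=
      LinearEquiv.ofFinrankEq _ _ hfr.symm
    have h1 : Function.Surjective ((e : Module.End R (CP D) →ₗ[R] CP D ⊗[R] (CP D)ᵐᵒᵖ) ∘ₗ
        (AlgHom.mulLeftRight R (CP D)).toLinearMap) := e.surjective.comp hs
    have h2 := OrzechProperty.injective_of_surjective_endomorphism _ h1
    refine ⟨?_, hs⟩
    intro a b hab
    apply h2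
    exact congrArg e hab

end

end Pool.Agent.W620.SB
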