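import Pool.Agent.W620.SB.CPSplit

/-! # Cyclic algebras -/

set_option autoImplicit false
set_option linter.unusedSectionVars false

open Module TensorProduct

namespace Pool.Agent.W620.SB

/-- A finite cyclic group with a generator and exponents. -/
structure CycG (G : Type) [Group G] [Fintype G] where
  /-- the generator -/
  σ : G
  /-- the exponent -/
  ν : G → ℕ
  ν_lt : ∀ g, ν g < Fintype.card G
  pow_ν : ∀ g, σ ^ ν g = g
  ν_pow : ∀ k, ν (σ ^ k) = k % Fintype.card G

theorem CycG.nonempty (G : Type) [Group G] [Fintype G] [IsCyclic G] : Nonempty (CycG G) := by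
  classical
  obtain ⟨σ, hσ⟩ := IsCyclic.exists_generator (α := G)
  have ho : orderOf σ = Fintype.card G := orderOf_eq_card_of_forall_mem_zpowers hσ |>.trans
    Nat.card_eq_fintype_card
  have h1 (g : G) : ∃ k < Fintype.card G, σ ^ k = g := by
    have := (mem_powers_iff_mem_zpowers.2 (hσ g))
    rw [mem_powers_iff_mem_range_orderOf (x := σ)] at this
    obtain ⟨k, hk, hk2⟩ := Finset.mem_image.1 this
    rw [Finset.mem_range, ho] at hk
    exact ⟨k, hk, hk2⟩
  choose ν hν1 hν2 using h1
  refine ⟨⟨σ, ν, hν1, hν2, fun k => ?_⟩⟩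
  have h2 := hν2 (σ ^ k)
  rw [pow_eq_pow_iff_modEq, ho] at h2
  have h3 : ν (σ ^ k) % Fintype.card G = k % Fintype.card G := h2
  rwa [Nat.mod_eq_of_lt (hν1 _)] at h3

namespace CycG

variable {G : Type} [Group G] [Fintype G] (C : CycG G)

/-- The carry. -/
def carry (g h : G) : ℕ := (C.ν g + C.ν h) / Fintype.card G

theorem ν_mul (g h : G) : C.ν (g * h) = (C.ν g + C.ν h) % Fintype.card G := by
  rw [← C.ν_pow, pow_add, C.pow_ν, C.pow_ν]

theorem carry_spec (g h : G) : C.ν g + C.ν h = C.ν (g * h) + Fintype.card G * C.carry g h := by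
  rw [ν_mul, carry, Nat.mod_add_div]

theorem ν_one : C.ν 1 = 0 := by
  have := C.ν_pow 0
  rwa [pow_zero, Nat.zero_mod] at this

theorem carry_one_left (g : G) : C.carry 1 g = 0 := by
  rw [carry, ν_one, zero_add]
  exact Nat.div_eq_of_lt (C.ν_lt g)

theorem carry_one_right (g : G) : C.carry g 1 = 0 := by
  rw [carry, ν_one, add_zero]
  exact Nat.div_eq_of_lt (C.ν_lt g)

theorem carry_assoc (a b d : G) :
    C.carry a b + C.carry (a * b) d = C.carry b d + C.carry a (b * d) := by
  have hn : 0 < Fintype.card G := Fintype.card_pos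
  have h1 := C.carry_spec a b
  have h2 := C.carry_spec (a * b) d
  have h3 := C.carry_spec b d
  have h4 := C.carry_spec a (b * d)
  rw [← mul_assoc] at h4
  refine Nat.eq_of_mul_eq_mul_left hn ?_
  rw [mul_add, mul_add]
  omega

end CycG

section

variable {G R S : Type} [Group G] [Fintype G] [DecidableEq G] [CommRing R] [CommRing S]
  [Algebra R S] (C : CycG G) (act : G →* (S ≃ₐ[R] S)) (u : Rˣ)

/-- The cocycle of the cyclic algebra. -/
def cycCoc : Coc G R S where
  act := act
  c g h := u ^ C.carry g h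
  one_left g := by rw [C.carry_one_left, pow_zero]
  one_right g := by rw [C.carry_one_right, pow_zero]
  assoc a b d := by rw [← pow_add, ← pow_add, C.carry_assoc]

theorem shift_prod (w : S) (m : ℕ) :
    ∏ i ∈ Finset.range (Fintype.card G), act (C.σ ^ (m + i)) w = ∏ g, act g w := by
  have hn : 0 < Fintype.card G := Fintype.card_pos
  refine Finset.prod_bij (fun i _ => C.σ ^ (m + i)) (fun _ _ => Finset.mem_univ _) ?_ ?_ ?_
  · intro i hi j hj hij
    have h1 : C.ν (C.σ ^ (m + i)) = C.ν (C.σ ^ (m + j)) := congrArg C.ν hij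
    rw [C.ν_pow, C.ν_pow] at h1
    rw [Finset.mem_range] at hi hj
    have h2 : i % Fintype.card G = j % Fintype.card G := Nat.ModEq.add_left_cancel' m h1
    rwa [Nat.mod_eq_of_lt hi, Nat.mod_eq_of_lt hj] at h2
  · intro g _
    refine ⟨C.ν (C.σ ^ (Fintype.card G * m - m) * g), Finset.mem_range.2 (C.ν_lt _), ?_⟩
    rw [pow_add, C.pow_ν, ← mul_assoc, ← pow_add]
    have h1 : m + (Fintype.card G * m - m) = Fintype.card G * m := by
      have : m ≤ Fintype.card G * m := Nat.le_mul_of_pos_left m hn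
      omega
    rw [h1, pow_mul, pow_card_eq_one, one_pow, one_mul]
  · intro i _
    rfl

theorem prod_range_add (w : S) (m k : ℕ) :
    ∏ i ∈ Finset.range (m + Fintype.card G * k), act (C.σ ^ i) w
      = (∏ i ∈ Finset.range m, act (C.σ ^ i) w) * (∏ g, act g w) ^ k := by
  induction k with
  | zero => simp
  | succ k ih =>
    rw [mul_add, mul_one, ← add_assoc, Finset.prod_range_add, ih, shift_prod, pow_succ, mul_assoc]

theorem act_mul' (g h : G) (s : S) : act (g * h) s = act g (act h s) := by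
  rw [map_mul]; rfl

theorem coboundary_of_norm (w : Sˣ) (hw : ∏ g, act g (w : S) = algebraMap R S u) :
    ∃ b : G → Sˣ, ∀ g h, algebraMap R S ((cycCoc C act u).c g h) * b (g * h)
      = b g * (cycCoc C act u).act g (b h) := by
  refine ⟨fun g => ∏ i ∈ Finset.range (C.ν g), Units.map (act (C.σ ^ i) : S →* S) w, fun g h => ?_⟩
  change algebraMap R S ((u ^ C.carry g h : Rˣ) : R) * _ = _ * act g _
  have hcoe (g : G) : ((∏ i ∈ Finset.range (C.ν g), Units.map (act (C.σ ^ i) : S →* S) w : Sˣ) : S)
      = ∏ i ∈ Finset.range (C.ν g), act (C.σ ^ i) w := by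
    rw [Units.coe_prod]
    rfl
  rw [hcoe, hcoe, hcoe, map_prod]
  have h1 (i : ℕ) : act g (act (C.σ ^ i) w) = act (C.σ ^ (C.ν g + i)) w := by
    rw [← act_mul', pow_add, C.pow_ν]
  simp_rw [h1]
  rw [← Finset.prod_range_add, C.carry_spec, prod_range_add C act (w : S), hw, Units.val_pow_eq_pow_val,
    map_pow, mul_comm]

end

section nonsplit

variable {G K S : Type} [Group G] [Fintype G] [DecidableEq G] [Field K] [CommRing S]
  [Algebra K S] [Module.Finite K S] (C : CycG G) (act : G →* (S ≃ₐ[K] S)) (u : Kˣ)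

theorem pow_sgl (k : ℕ) (hk : k < Fintype.card G) :
    (sgl (cycCoc C act u) C.σ 1) ^ k = sgl (cycCoc C act u) (C.σ ^ k) 1 := by
  induction k with
  | zero => rw [pow_zero, pow_zero]; rfl
  | succ k ih =>
    rw [pow_succ', ih (by omega), sgl_mul, pow_succ']
    congr 1
    have h1 : C.carry C.σ (C.σ ^ k) = 0 := by
      rw [CycG.carry, C.ν_pow, Nat.mod_eq_of_lt (by omega : k < Fintype.card G)]
      have h2 : C.ν C.σ = 1 := by
        have := C.ν_pow 1
        rw [pow_one, Nat.mod_eq_of_lt (by omega)] at this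
        exact this
      rw [h2]
      exact Nat.div_eq_of_lt (by omega)
    change ((u ^ C.carry C.σ (C.σ ^ k) : Kˣ) : K) • ((1 : S) * act C.σ 1) = 1
    rw [h1, map_one]
    simp

theorem pow_card_sgl (hcard : 1 < Fintype.card G) :
    (sgl (cycCoc C act u) C.σ 1) ^ (Fintype.card G) = algebraMap K _ (u : K) := by
  have hn : 0 < Fintype.card G := Fintype.card_pos
  obtain ⟨m, hm⟩ : ∃ m, Fintype.card G = m + 1 := ⟨Fintype.card G - 1, by omega⟩
  have h0 : (sgl (cycCoc C act u) C.σ 1) ^ (m + 1) = algebraMap K _ (u : K) := by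
    rw [pow_succ', pow_sgl C act u m (by omega), sgl_mul, ← pow_succ', ← hm, pow_card_eq_one,
      Algebra.algebraMap_eq_smul_one, one_def, ← sgl_smul]
    congr 1
    have h1 : C.carry C.σ (C.σ ^ m) = 1 := by
      rw [CycG.carry, C.ν_pow, Nat.mod_eq_of_lt (by omega : m < Fintype.card G)]
      have h2 : C.ν C.σ = 1 := by
        have := C.ν_pow 1
        rw [pow_one, Nat.mod_eq_of_lt (by omega)] at this
        exact this
      rw [h2, add_comm, ← hm]
      exact Nat.div_self hn
    change ((u ^ C.carry C.σ (C.σ ^ m) : Kˣ) : K) • ((1 : S) * act C.σ 1) = _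
    rw [h1, map_one]
    simp
  rw [hm]
  exact h0

theorem norm_of_isSplit (hcard : 1 < Fintype.card G) (hfr : finrank K S = Fintype.card G)
    (hfield : ∀ s : S, s ≠ 0 → IsUnit s) (h : IsSplit K (CP (cycCoc C act u))) :
    ∃ β : S, ∏ g, act g β = algebraMap K S u := by
  obtain ⟨m, hm0, ⟨e⟩⟩ := h
  let D := cycCoc C act u
  let ρ : CP D →ₐ[K] Module.End K (Fin m → K) :=
    (Matrix.toLinAlgEquiv' : Matrix (Fin m) (Fin m) K ≃ₐ[K] _).toAlgHom.comp e.toAlgHom
  have hm : m = finrank K S := by
    have h1 := e.toLinearEquiv.finrank_eq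
    rw [finrank_CP, hfr, Module.finrank_matrix, Module.finrank_self, mul_one, Fintype.card_fin] at h1
    rw [hfr]
    exact (Nat.mul_self_inj.1 h1).symm
  have : Nonempty (Fin m) := ⟨⟨0, Nat.pos_of_ne_zero hm0⟩⟩
  obtain ⟨v, hv⟩ := exists_ne (0 : Fin m → K)
  let j : S →ₗ[K] (Fin m → K) :=
    { toFun := fun s => ρ (sgl D 1 s) v
      map_add' := fun s t => by rw [sgl_add, map_add, LinearMap.add_apply]
      map_smul' := fun r s => by rw [sgl_smul, map_smul, LinearMap.smul_apply]; rfl }
  have hjdef (s : S) : j s = ρ (sgl D 1 s) v := rfl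
  have h11 (s t : S) : sgl D 1 s * sgl D 1 t = sgl D 1 (s * t) := by
    rw [sgl_mul, D.one_left, one_mul, map_one, Units.val_one, one_smul]
    rfl
  have hjmul (s t : S) : ρ (sgl D 1 s) (j t) = j (s * t) := by
    rw [hjdef, hjdef, ← h11, map_mul]; rfl
  have hinj : Function.Injective j := by
    rw [injective_iff_map_eq_zero]
    intro s hs
    by_contra hne
    obtain ⟨t, ht⟩ := (hfield s hne).exists_left_inv
    apply hv
    have h1 : j (t * s) = 0 := by rw [← hjmul, hs, map_zero]
    rw [ht, hjdef, ← one_def, map_one] at h1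
    exact h1
  have hsurj : Function.Surjective j := by
    refine (LinearMap.injective_iff_surjective_of_finrank_eq_finrank (f := j) ?_).1 hinj
    rw [Module.finrank_pi, Fintype.card_fin, hm]
  obtain ⟨β, hβ⟩ := hsurj (ρ (sgl D C.σ 1) v)
  have hstep (s : S) : ρ (sgl D C.σ 1) (j s) = j (act C.σ s * β) := by
    rw [← hjmul, hβ, hjdef, ← Module.End.mul_apply, ← Module.End.mul_apply, ← map_mul, ← map_mul]
    congr 2
    rw [sgl_mul, sgl_mul, D.one_left, D.one_right, mul_one, one_mul, map_one]
    simp only [Units.val_one, one_smul, one_mul, mul_one]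
    rfl
  have hpow (k : ℕ) : ρ ((sgl D C.σ 1) ^ k) v = j (∏ i ∈ Finset.range k, act (C.σ ^ i) β) := by
    induction k with
    | zero => rw [pow_zero, Finset.prod_range_zero, hjdef]; rfl
    | succ k ih =>
      rw [pow_succ', map_mul, Module.End.mul_apply, ih, hstep, Finset.prod_range_succ', pow_zero,
        map_one, map_prod]
      congr 2
      refine Finset.prod_congr rfl fun i _ => ?_
      rw [pow_succ', act_mul']
  refine ⟨β, ?_⟩
  apply hinj
  rw [← shift_prod C act β 0]
  simp only [zero_add]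
  rw [← hpow, pow_card_sgl C act u hcard, hjdef, Algebra.algebraMap_eq_smul_one,
    Algebra.algebraMap_eq_smul_one, sgl_smul, one_def]

end nonsplit

end Pool.Agent.W620.SB
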