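import Pool.Agent.W620.SB.CPAz

/-! # Base change and splitting of crossed product algebras -/

set_option autoImplicit false
set_option linter.unusedSectionVars false

open Module TensorProduct

namespace Pool.Agent.W620.SB

section basechange

variable {G R S K S' : Type} [Group G] [Fintype G] [DecidableEq G] [CommRing R] [CommRing S]
  [Algebra R S] [Field K] [CommRing S'] [Algebra K S'] [Algebra R K]
  (D : Coc G R S) (D' : Coc G K S') (ρ : S →+* S')
  (hρ : ∀ r : R, ρ (algebraMap R S r) = algebraMap K S' (algebraMap R K r))
  (hact : ∀ g s, ρ (D.act g s) = D'.act g (ρ s))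
  (hc : ∀ g h, (D'.c g h : K) = algebraMap R K (D.c g h))

/-- The map between crossed products. -/
def theta (z : CP D) : CP D' := fun g => ρ ((z : G → S) g)

theorem theta_apply (z : CP D) (g : G) : (theta D D' ρ z : G → S') g = ρ ((z : G → S) g) := rfl

theorem theta_sgl (g : G) (s : S) : theta D D' ρ (sgl D g s) = sgl D' g (ρ s) := by
  refine CP_ext D' fun k => ?_
  rw [theta_apply, sgl_apply, sgl_apply]
  split_ifs <;> simp

include hρ in
theorem rho_smul (r : R) (s : S) : ρ (r • s) = algebraMap R K r • ρ s := by
  rw [Algebra.smul_def, map_mul, hρ, Algebra.smul_def]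

include hρ hact hc in
theorem theta_mul (z w : CP D) : theta D D' ρ (z * w) = theta D D' ρ z * theta D D' ρ w := by
  refine CP_ext D' fun k => ?_
  rw [theta_apply, mul_apply, mul_apply, map_sum]
  refine Finset.sum_congr rfl fun g _ => ?_
  rw [rho_smul ρ hρ, map_mul, hact, hc, theta_apply, theta_apply]

include hρ hact hc in
theorem baseChange_equiv [Module.Free R S] [Module.Finite R S] [Module.Finite K S'] [Nontrivial R]
    (hfr : finrank R S = finrank K S') (hspan : Submodule.span K (Set.range ρ) = ⊤) :
    Nonempty (K ⊗[R] CP D ≃ₐ[K] CP D') := by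
  let _ : Algebra R (CP D') := Algebra.compHom (CP D') (algebraMap R K)
  have : IsScalarTower R K (CP D') := IsScalarTower.of_algebraMap_eq' rfl
  have hsm (r : R) (z : CP D') : r • z = algebraMap R K r • z := by
    rw [← IsScalarTower.algebraMap_smul K r z]
  let θ : CP D →ₐ[R] CP D' := AlgHom.ofLinearMap
    { toFun := theta D D' ρ
      map_add' := fun z w => by
        refine CP_ext D' fun k => ?_
        rw [add_apply, theta_apply, theta_apply, theta_apply, add_apply, map_add]
      map_smul' := fun r z => by
        refine CP_ext D' fun k => ?_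
        rw [RingHom.id_apply, hsm, smul_apply, theta_apply, theta_apply, smul_apply,
          rho_smul ρ hρ] }
    (by
      change theta D D' ρ 1 = 1
      rw [one_def, theta_sgl, map_one, one_def])
    (fun z w => theta_mul D D' ρ hρ hact hc z w)
  have hcomm : ∀ (k : K) (z : CP D), Commute (Algebra.ofId K (CP D') k) (θ z) :=
    fun k z => Algebra.commutes k (θ z)
  let Θ : K ⊗[R] CP D →ₐ[K] CP D' := Algebra.TensorProduct.lift (Algebra.ofId K _) θ hcomm
  have hΘ (k : K) (z : CP D) : Θ (k ⊗ₜ z) = k • theta D D' ρ z := by
    have h1 : Θ (k ⊗ₜ z) = Algebra.ofId K (CP D') k * θ z :=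
      Algebra.TensorProduct.lift_tmul _ _ hcomm k z
    rw [h1, Algebra.ofId_apply, ← Algebra.smul_def]
    rfl
  have hsurj : Function.Surjective Θ := by
    have h1 (g : G) (s : S') : sgl D' g s ∈ Θ.range := by
      have hs : s ∈ Submodule.span K (Set.range ρ) := by rw [hspan]; trivial
      induction hs using Submodule.span_induction with
      | mem x hx =>
        obtain ⟨s0, rfl⟩ := hx
        refine ⟨1 ⊗ₜ sgl D g s0, ?_⟩
        change Θ _ = _
        rw [hΘ, one_smul, theta_sgl]
      | zero => rw [sgl_zero]; exact Subalgebra.zero_mem _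
      | add x y _ _ h1 h2 => rw [sgl_add]; exact Subalgebra.add_mem _ h1 h2
      | smul k x _ h1 => rw [sgl_smul]; exact Subalgebra.smul_mem _ h1 k
    intro z
    have h2 : z ∈ Θ.range := by
      rw [← sum_sgl D' z]
      exact Subalgebra.sum_mem _ fun g _ => h1 g _
    exact h2
  have hf1 : finrank K (K ⊗[R] CP D) = finrank K (CP D') := by
    rw [Module.finrank_baseChange]
    have e1 : finrank R (CP D) = Fintype.card G * finrank R S := by
      have := Module.finrank_pi_fintype R (M := fun _ : G => S)
      rw [Finset.sum_const, Finset.card_univ, smul_eq_mul] at this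
      exact this
    have e2 : finrank K (CP D') = Fintype.card G * finrank K S' := by
      have := Module.finrank_pi_fintype K (M := fun _ : G => S')
      rw [Finset.sum_const, Finset.card_univ, smul_eq_mul] at this
      exact this
    rw [e1, e2, hfr]
  have hinj : Function.Injective Θ :=
    (LinearMap.injective_iff_surjective_of_finrank_eq_finrank (f := Θ.toLinearMap) hf1).2 hsurj
  exact ⟨AlgEquiv.ofBijective Θ ⟨hinj, hsurj⟩⟩

end basechange

section split

variable {G K S : Type} [Group G] [Fintype G] [DecidableEq G] [Field K] [CommRing S]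
  [Algebra K S] (D : Coc G K S) [Module.Finite K S] {ι : Type} [Fintype ι] (x y : ι → S)
  (hxy : ∀ g, ∑ i, x i * D.act g (y i) = if g = 1 then 1 else 0)
  (htr : ∀ s, ∃ r : K, ∑ g, D.act g s = algebraMap K S r)

/-- An algebra over a field is split if it is a matrix algebra. -/
def IsSplit (K A : Type) [Field K] [Ring A] [Algebra K A] : Prop :=
  ∃ n : ℕ, n ≠ 0 ∧ Nonempty (A ≃ₐ[K] Matrix (Fin n) (Fin n) K)

theorem finrank_CP : finrank K (CP D) = Fintype.card G * finrank K S := by
  have := Module.finrank_pi_fintype K (M := fun _ : G => S)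
  rw [Finset.sum_const, Finset.card_univ, smul_eq_mul] at this
  exact this

include hxy htr in
theorem isSplit_of_coboundary (hfr : finrank K S = Fintype.card G) (b : G → Sˣ)
    (hb : ∀ g h, algebraMap K S (D.c g h) * b (g * h) = b g * D.act g (b h)) :
    IsSplit K (CP D) := by
  have hb1 : (b 1 : S) = 1 := by
    have := hb 1 1
    rw [D.one_left, map_one, mul_one, Units.val_one, map_one, one_mul] at this
    have h2 : (b 1 : S) * (b 1 : S) = b 1 * 1 := by
      rw [mul_one]; exact this.symm
    exact (b 1).isUnit.mul_left_cancel h2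
  let Ψ : CP D →ₐ[K] Module.End K S := AlgHom.ofLinearMap
    { toFun := fun z =>
        { toFun := fun s => ∑ g, (z : G → S) g * b g * D.act g s
          map_add' := fun s t => by simp only [map_add, mul_add, Finset.sum_add_distrib]
          map_smul' := fun r s => by
            simp only [map_smul, Algebra.mul_smul_comm, Finset.smul_sum, RingHom.id_apply] }
      map_add' := fun z w => by
        ext s
        change ∑ g, (z + w : CP D) g * b g * D.act g s = (∑ g, (z : G → S) g * b g * D.act g s)
          + ∑ g, (w : G → S) g * b g * D.act g s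
        simp only [add_apply, add_mul, Finset.sum_add_distrib]
      map_smul' := fun r z => by
        ext s
        change ∑ g, (r • z : CP D) g * b g * D.act g s = r • ∑ g, (z : G → S) g * b g * D.act g s
        simp only [smul_apply, Algebra.smul_mul_assoc, Finset.smul_sum] }
    (by
      ext s
      change ∑ g, (1 : CP D) g * b g * D.act g s = s
      rw [Finset.sum_eq_single 1]
      · rw [one_def, sgl_apply, if_pos rfl, hb1, map_one]
        simp
      · intro g _ hg
        rw [one_def, sgl_apply, if_neg hg, zero_mul, zero_mul]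
      · intro h; exact absurd (Finset.mem_univ 1) h)
    (fun z w => by
      ext s
      change ∑ k, (z * w : CP D) k * b k * D.act k s
        = ∑ g, (z : G → S) g * b g * D.act g (∑ h, (w : G → S) h * b h * D.act h s)
      simp_rw [mul_apply, Finset.sum_mul, map_sum, Finset.mul_sum]
      rw [Finset.sum_comm]
      refine Finset.sum_congr rfl fun g _ => ?_
      rw [← Equiv.sum_comp (Equiv.mulLeft g)]
      refine Finset.sum_congr rfl fun h _ => ?_
      simp only [Equiv.coe_mulLeft]
      have e1 : D.act g ((w : G → S) h * b h * D.act h s)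
          = D.act g ((w : G → S) h) * D.act g (b h) * D.act (g * h) s := by
        rw [map_mul (D.act g), map_mul (D.act g), act_mul_apply]
      rw [inv_mul_cancel_left, e1, Algebra.smul_def]
      linear_combination ((z : G → S) g * D.act g ((w : G → S) h) * D.act (g * h) s) * hb g h)
  have hsurj : Function.Surjective Ψ := by
    intro τ
    refine ⟨(fun g => (∑ i, D.act g (x i) * τ (y i)) * ((b g)⁻¹ : Sˣ) : G → S), ?_⟩
    ext s
    change ∑ g, (∑ i, D.act g (x i) * τ (y i)) * ((b g)⁻¹ : Sˣ) * b g * D.act g s = τ s
    rw [end_formula D x y hxy htr τ s]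
    refine Finset.sum_congr rfl fun g _ => ?_
    rw [mul_assoc _ (((b g)⁻¹ : Sˣ) : S), Units.inv_mul, mul_one]
  have hf : finrank K (CP D) = finrank K (Module.End K S) := by
    rw [finrank_CP, Module.finrank_linearMap, hfr]
  have hinj : Function.Injective Ψ :=
    (LinearMap.injective_iff_surjective_of_finrank_eq_finrank (f := Ψ.toLinearMap) hf).2 hsurj
  let e := AlgEquiv.ofBijective Ψ ⟨hinj, hsurj⟩
  refine ⟨finrank K S, ?_, ⟨e.trans (algEquivMatrix (Module.finBasis K S))⟩⟩
  rw [hfr]
  exact Fintype.card_ne_zero

end split

end Pool.Agent.W620.SB
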