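import Pool.Agent.W620.SB.NormSurj

/-! # Norms from the cyclotomic field away from `p` -/

set_option autoImplicit false

open Polynomial Module

namespace Pool.Agent.W620.SB

section

variable (p : ℕ) [hp : Fact p.Prime] (L : Type) [Field L] [NumberField L]
  [IsCyclotomicExtension {p} ℚ L]

/-- The primitive root of unity. -/
noncomputable def zt : L := IsCyclotomicExtension.zeta p ℚ L

theorem zt_spec : IsPrimitiveRoot (zt p L) p := IsCyclotomicExtension.zeta_spec p ℚ L

/-- A basis of `K[X]/Φ_p`. -/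
noncomputable def bas (K : Type) [CommRing K] [Nontrivial K] :
    Basis (Fin (p - 1)) K (AdjoinRoot (cyclotomic p K)) :=
  (AdjoinRoot.powerBasis' (cyclotomic.monic p K)).basis.reindex (finCongr (by
    rw [AdjoinRoot.powerBasis'_dim, natDegree_cyclotomic, Nat.totient_prime hp.out]))

theorem bas_apply (K : Type) [CommRing K] [Nontrivial K] (i : Fin (p - 1)) :
    bas p K i = AdjoinRoot.root (cyclotomic p K) ^ (i : ℕ) := by
  unfold bas
  rw [Basis.reindex_apply, PowerBasis.basis_eq_pow]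
  simp

/-- A basis of the cyclotomic field. -/
noncomputable def basL : Basis (Fin (p - 1)) ℚ L :=
  ((zt_spec p L).powerBasis ℚ).basis.reindex (finCongr (by
    rw [← PowerBasis.finrank, IsCyclotomicExtension.finrank (n := p) L
      (cyclotomic.irreducible_rat hp.out.pos), Nat.totient_prime hp.out]))

theorem basL_apply (i : Fin (p - 1)) : basL p L i = zt p L ^ (i : ℕ) := by
  unfold basL
  rw [Basis.reindex_apply, PowerBasis.basis_eq_pow]
  simp

omit hp in
/-- Reduction of `ℤ[X]/Φ_p` to `K[X]/Φ_p`. -/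
noncomputable def redHom (K : Type) [CommRing K] :
    AdjoinRoot (cyclotomic p ℤ) →+* AdjoinRoot (cyclotomic p K) :=
  AdjoinRoot.lift ((algebraMap K _).comp (Int.castRingHom K)) (AdjoinRoot.root (cyclotomic p K)) (by
    rw [← eval₂_map, map_cyclotomic]
    exact AdjoinRoot.eval₂_root _)

omit hp in
theorem redHom_root (K : Type) [CommRing K] :
    redHom p K (AdjoinRoot.root _) = AdjoinRoot.root _ := by
  unfold redHom
  rw [AdjoinRoot.lift_root]

/-- The map from `ℤ[X]/Φ_p` to the cyclotomic field. -/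
noncomputable def toLL : AdjoinRoot (cyclotomic p ℤ) →+* L :=
  AdjoinRoot.lift (Int.castRingHom L) (zt p L) (by
    have h := (zt_spec p L).isRoot_cyclotomic hp.out.pos
    rw [← map_cyclotomic p (Int.castRingHom L), IsRoot.def, eval_map] at h
    exact h)

theorem toLL_root : toLL p L (AdjoinRoot.root _) = zt p L := by
  unfold toLL
  rw [AdjoinRoot.lift_root]

instance reduced_aux (ℓ : ℕ) [hℓ : Fact ℓ.Prime] [hne : Fact (ℓ ≠ p)] :
    IsReduced (AdjoinRoot (cyclotomic p (ZMod ℓ))) := by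
  have hne0 : ((p : ℕ) : ZMod ℓ) ≠ 0 := by
    intro h
    rw [ZMod.natCast_eq_zero_iff] at h
    exact hne.out ((Nat.prime_dvd_prime_iff_eq hℓ.out hp.out).1 h)
  have hsep : (X ^ p - 1 : (ZMod ℓ)[X]).Separable := by
    have := separable_X_pow_sub_C (1 : ZMod ℓ) hne0 one_ne_zero
    simpa using this
  have h1 : (cyclotomic p (ZMod ℓ)).Separable := hsep.of_dvd (cyclotomic.dvd_X_pow_sub_one p _)
  have h2 : IsRadical (cyclotomic p (ZMod ℓ)) := h1.squarefree.isRadical
  rw [isRadical_iff_span_singleton, Ideal.isRadical_iff_quotient_reduced] at h2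
  exact h2

theorem exists_int_norm (ℓ : ℕ) [hℓ : Fact ℓ.Prime] (hne : ℓ ≠ p) (c : ZMod ℓ) (hc : c ≠ 0) :
    ∃ (α : L) (m : ℤ), Algebra.norm ℚ α = m ∧ (m : ZMod ℓ) = c := by
  have : Fact (ℓ ≠ p) := ⟨hne⟩
  have hp1 : 0 < p - 1 := Nat.sub_pos_of_lt hp.out.one_lt
  have hfd : FiniteDimensional (ZMod ℓ) (AdjoinRoot (cyclotomic p (ZMod ℓ))) :=
    (bas p (ZMod ℓ)).finiteDimensional_of_finite
  have hnt : Nontrivial (AdjoinRoot (cyclotomic p (ZMod ℓ))) :=
    ⟨_, _, (bas p (ZMod ℓ)).ne_zero ⟨0, hp1⟩⟩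
  obtain ⟨a, ha⟩ := norm_surj (A := AdjoinRoot (cyclotomic p (ZMod ℓ))) c hc
  -- lift
  choose lf hlf using ZMod.intCast_surjective (n := ℓ)
  let a' : AdjoinRoot (cyclotomic p ℤ) :=
    ∑ i, algebraMap ℤ _ (lf ((bas p (ZMod ℓ)).repr a i)) * bas p ℤ i
  have hred : redHom p (ZMod ℓ) a' = a := by
    conv_rhs => rw [← (bas p (ZMod ℓ)).sum_repr a]
    rw [map_sum]
    refine Finset.sum_congr rfl fun i _ => ?_
    rw [map_mul, bas_apply, bas_apply, map_pow, redHom_root, Algebra.smul_def]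
    congr 1
    rw [eq_intCast, map_intCast, ← hlf ((bas p (ZMod ℓ)).repr a i), map_intCast, hlf]
  refine ⟨toLL p L a', Algebra.norm ℤ a', ?_, ?_⟩
  · refine norm_compat (bas p ℤ) (basL p L) (Int.castRingHom ℚ) (toLL p L) ?_ ?_ a'
    · intro c
      simp
    · intro i
      rw [bas_apply, basL_apply, map_pow, toLL_root]
  · rw [← ha, ← hred]
    refine (norm_compat (bas p ℤ) (bas p (ZMod ℓ)) (Int.castRingHom (ZMod ℓ)) (redHom p (ZMod ℓ))
      ?_ ?_ a').symm
    · intro c
      simp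
    · intro i
      rw [bas_apply, bas_apply, map_pow, redHom_root]

end

end Pool.Agent.W620.SB
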