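import Pool.Agent.W620.SB.Br

/-! # The cyclotomic field stays a field over the `p`-adic numbers -/

set_option autoImplicit false

open Module TensorProduct Polynomial

namespace Pool.Agent.W620.SB

variable (p : ℕ) [hp : Fact p.Prime] (L : Type) [Field L] [NumberField L]
  [IsCyclotomicExtension {p} ℚ L] [IsGalois ℚ L]

theorem exists_embedding (hp2 : p ≠ 2) :
    ∃ Φ : L ⊗[ℚ] ℚ_[p] →ₐ[ℚ] PadicAlgCl p, Function.Injective Φ := by
  classical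
  have hpp := hp.out
  have hp1 : 1 < p := hpp.one_lt
  have hpR : (1 : ℝ) < p := by exact_mod_cast hp1
  -- an embedding
  let φ : L →ₐ[ℚ] PadicAlgCl p := IsAlgClosed.lift
  let ψ : ℚ_[p] →ₐ[ℚ] PadicAlgCl p := (algebraMap ℚ_[p] (PadicAlgCl p)).toRatAlgHom
  have hψ (a : ℚ_[p]) : ‖ψ a‖ = ‖a‖ := PadicAlgCl.norm_extends p a
  let Φ : L ⊗[ℚ] ℚ_[p] →ₐ[ℚ] PadicAlgCl p := Algebra.TensorProduct.productMap φ ψ
  have hΦ (l : L) (a : ℚ_[p]) : Φ (l ⊗ₜ a) = φ l * ψ a := Algebra.TensorProduct.productMap_apply_tmul _ _ _ _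
  set ρ : ℝ := ‖φ (zt p L) - 1‖ with hρ
  have hρp : ρ ^ (p - 1) = (p : ℝ)⁻¹ := norm_zt p L (φ : L →+* PadicAlgCl p) hp2
  have hρ0 : 0 < ρ := by
    refine lt_of_le_of_ne (norm_nonneg _) fun h0 => ?_
    rw [← h0, zero_pow (by omega)] at hρp
    have : (0 : ℝ) < (p : ℝ)⁻¹ := by positivity
    exact this.ne hρp
  refine ⟨Φ, ?_⟩
  rw [injective_iff_map_eq_zero]
  intro w hw
  -- the expansion
  obtain ⟨c, hc⟩ := TensorProduct.eq_repr_basis_left (basS p L) w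
  have hexp : Φ w = ∑ i ∈ c.support, (φ (zt p L) - 1) ^ (i : ℕ) * ψ (c i) := by
    rw [← hc, Finsupp.sum, map_sum]
    refine Finset.sum_congr rfl fun i _ => ?_
    rw [hΦ, basS_apply, map_pow, map_sub, map_one]
  have hterm (i : Fin (p - 1)) :
      ‖(φ (zt p L) - 1) ^ (i : ℕ) * ψ (c i)‖ = ρ ^ (i : ℕ) * ‖c i‖ := by
    rw [norm_mul, norm_pow, hψ]
  -- the exponents
  have hval (i : Fin (p - 1)) (hi : c i ≠ 0) : ∃ m : ℤ,
      (ρ ^ (i : ℕ) * ‖c i‖) ^ (p - 1) = (p : ℝ) ^ (m * ((p : ℤ) - 1) - (i : ℕ)) := by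
    refine ⟨-(c i).valuation, ?_⟩
    rw [mul_pow, ← pow_mul, mul_comm (i : ℕ), pow_mul, hρp, Padic.norm_eq_zpow_neg_valuation hi,
      zpow_sub₀ (by positivity), zpow_mul, zpow_natCast, inv_pow, div_eq_inv_mul]
    congr 1
    rw [← zpow_natCast]
    congr 1
    have : 1 ≤ p := hp1.le
    push_cast [Nat.cast_sub this]
    rfl
  have hdist (i j : Fin (p - 1)) (hi : c i ≠ 0) (hj : c j ≠ 0)
      (hij : ρ ^ (i : ℕ) * ‖c i‖ = ρ ^ (j : ℕ) * ‖c j‖) : i = j := by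
    obtain ⟨m, hm⟩ := hval i hi
    obtain ⟨n, hn⟩ := hval j hj
    rw [hij, hn] at hm
    have h1 := zpow_right_injective₀ (by positivity) hpR.ne' hm
    have h2 : ((p : ℤ) - 1) ∣ ((i : ℕ) : ℤ) - (j : ℕ) := ⟨m - n, by linarith⟩
    have hi2 := i.2
    have hj2 := j.2
    have h3 : ((i : ℕ) : ℤ) - (j : ℕ) = 0 := by
      apply Int.eq_zero_of_abs_lt_dvd h2
      rw [abs_lt]
      constructor <;> omega
    exact Fin.ext (by omega)
  by_contra hw0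
  have hne : c.support.Nonempty := by
    by_contra h0
    rw [Finset.not_nonempty_iff_eq_empty] at h0
    apply hw0
    rw [← hc, Finsupp.sum, h0, Finset.sum_empty]
  obtain ⟨i0, hi0, hmax⟩ := Finset.exists_max_image c.support (fun i => ρ ^ (i : ℕ) * ‖c i‖) hne
  have hi0' : c i0 ≠ 0 := Finsupp.mem_support_iff.1 hi0
  have hM0 : 0 < ρ ^ (i0 : ℕ) * ‖c i0‖ := by
    have : 0 < ‖c i0‖ := norm_pos_iff.2 hi0'
    positivity
  have hlt : ∀ i ∈ c.support, i ≠ i0 → ρ ^ (i : ℕ) * ‖c i‖ < ρ ^ (i0 : ℕ) * ‖c i0‖ := by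
    intro i hi hne
    refine lt_of_le_of_ne (hmax i hi) fun h1 => hne ?_
    exact hdist i i0 (Finsupp.mem_support_iff.1 hi) hi0' h1
  have hclose : ‖Φ w - (φ (zt p L) - 1) ^ (i0 : ℕ) * ψ (c i0)‖ < ρ ^ (i0 : ℕ) * ‖c i0‖ := by
    rw [hexp, ← hterm i0]
    refine ultra_sum c.support (fun i => (φ (zt p L) - 1) ^ (i : ℕ) * ψ (c i)) i0 hi0 ?_ ?_
    · rw [hterm]; exact hM0
    · intro i hi hne
      rw [hterm, hterm]
      exact hlt i hi hne
  have hnorm : ‖Φ w‖ = ρ ^ (i0 : ℕ) * ‖c i0‖ := by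
    rw [← hterm i0]
    apply ultra_eq
    rw [hterm]
    exact hclose
  rw [hw, norm_zero] at hnorm
  exact hM0.ne hnorm

theorem isUnit_of_ne_zero_p (hp2 : p ≠ 2) (s : ℚ_[p] ⊗[ℚ] L) (hs : s ≠ 0) : IsUnit s := by
  obtain ⟨Φ, hΦ⟩ := exists_embedding p L hp2
  let Ψ : ℚ_[p] ⊗[ℚ] L →ₐ[ℚ] PadicAlgCl p :=
    Φ.comp (Algebra.TensorProduct.comm ℚ ℚ_[p] L).toAlgHom
  have hΨ : Function.Injective Ψ := hΦ.comp (Algebra.TensorProduct.comm ℚ ℚ_[p] L).injective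
  have hinj : Function.Injective (LinearMap.mulLeft ℚ_[p] s) := by
    rw [injective_iff_map_eq_zero]
    intro t ht
    have h1 : s * t = 0 := ht
    have h2 : Ψ s * Ψ t = 0 := by rw [← map_mul, h1, map_zero]
    rcases mul_eq_zero.1 h2 with h | h
    · exact absurd (hΨ (by rw [h, map_zero])) hs
    · exact hΨ (by rw [h, map_zero])
  have hsurj := LinearMap.injective_iff_surjective.1 hinj
  obtain ⟨t, ht⟩ := hsurj 1
  exact IsUnit.of_mul_eq_one t ht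

end Pool.Agent.W620.SB
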