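import Pool.Agent.W620.SB.BM

/-! # The Brauer–Manin set of the curve is empty -/

set_option autoImplicit false

open Module TensorProduct Polynomial

namespace Pool.Agent.W620.SB

/-- A rational number with given absolute values. -/
theorem exists_rat_norm (S : Finset Nat.Primes) (v : Nat.Primes → ℤ) :
    ∃ r : ℚ, 0 < r ∧ ∀ p : Nat.Primes,
      ‖((r : ℚ) : ℚ_[(p : ℕ)])‖ = if p ∈ S then ((p : ℕ) : ℝ) ^ (-(v p)) else 1 := by
  classical
  refine ⟨∏ q ∈ S, ((q : ℕ) : ℚ) ^ (v q), Finset.prod_pos fun q _ => zpow_pos (by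
    exact_mod_cast q.2.pos) _, fun p => ?_⟩
  rw [Rat.cast_prod, norm_prod]
  have h1 (q : Nat.Primes) : ‖((((q : ℕ) : ℚ) ^ (v q) : ℚ) : ℚ_[(p : ℕ)])‖
      = if q = p then ((p : ℕ) : ℝ) ^ (-(v p)) else 1 := by
    rw [Rat.cast_zpow, Rat.cast_natCast, norm_zpow]
    split_ifs with h
    · rw [h, Padic.norm_p, inv_zpow, zpow_neg]
    · have h2 : ‖(((q : ℕ) : ℕ) : ℚ_[(p : ℕ)])‖ = 1 := by
        have := norm_coe_int_eq_one (p : ℕ) ((q : ℕ) : ℤ) (by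
          intro h3
          have h4 : (p : ℕ) ∣ (q : ℕ) := by exact_mod_cast h3
          exact h (Subtype.ext ((Nat.prime_dvd_prime_iff_eq p.2 q.2).1 h4)).symm)
        exact_mod_cast this
      rw [h2, one_zpow]
  simp_rw [h1]
  rw [Finset.prod_ite_eq' S p]

theorem exists_rat_norm' (z : ∀ p : Nat.Primes, ℚ_[(p : ℕ)]) (hz : ∀ p, z p ≠ 0)
    (hfin : {p | ‖z p‖ ≠ 1}.Finite) :
    ∃ r : ℚ, 0 < r ∧ ∀ p : Nat.Primes, ‖((r : ℚ) : ℚ_[(p : ℕ)])‖ = ‖z p‖ := by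
  obtain ⟨r, hr0, hr⟩ := exists_rat_norm hfin.toFinset (fun p => (z p).valuation)
  refine ⟨r, hr0, fun p => ?_⟩
  rw [hr]
  split_ifs with h
  · rw [Padic.norm_eq_zpow_neg_valuation (hz p)]
  · rw [Set.Finite.mem_toFinset, Set.mem_ofPred_eq, not_not] at h
    exact h.symm

theorem norm_eq_one_of_large (q : ℚ) (hq : q ≠ 0) :
    ∃ N : ℕ, ∀ p : ℕ, ∀ [Fact p.Prime], N < p → ‖((q : ℚ) : ℚ_[p])‖ = 1 := by
  refine ⟨q.num.natAbs + q.den, fun p _ hp => ?_⟩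
  have h1 : ‖((q.num : ℤ) : ℚ_[p])‖ = 1 := by
    refine norm_coe_int_eq_one p _ fun h => ?_
    have h2 : p ∣ q.num.natAbs := Int.natCast_dvd.1 h
    have h3 := Nat.le_of_dvd (Int.natAbs_pos.2 (Rat.num_ne_zero.2 hq)) h2
    omega
  have h2 : ‖((q.den : ℤ) : ℚ_[p])‖ = 1 := by
    refine norm_coe_int_eq_one p _ fun h => ?_
    have h2 : p ∣ q.den := by exact_mod_cast h
    have h3 := Nat.le_of_dvd q.pos h2
    omega
  have h3 : ((q : ℚ) : ℚ_[p]) = ((q.num : ℤ) : ℚ_[p]) / ((q.den : ℤ) : ℚ_[p]) := by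
    conv_lhs => rw [← Rat.num_div_den q]
    push_cast
    rfl
  rw [h3, norm_div, h1, h2, div_one]

/-- Fermat: `r⁴ + 1` is not a square of a rational number for a rational number `r ≠ 0`. -/
theorem fermat (r s : ℚ) (hr : r ≠ 0) : r ^ 4 + 1 ≠ s ^ 2 := by
  intro h
  have ha : r.num ≠ 0 := Rat.num_ne_zero.2 hr
  have hb : (r.den : ℤ) ≠ 0 := by exact_mod_cast r.den_ne_zero
  have hd : (s.den : ℤ) ≠ 0 := by exact_mod_cast s.den_ne_zero
  have hb' : (r.den : ℚ) ≠ 0 := by exact_mod_cast r.den_ne_zero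
  have hd' : (s.den : ℚ) ≠ 0 := by exact_mod_cast s.den_ne_zero
  have e1 : r = r.num / r.den := (Rat.num_div_den r).symm
  have e2 : s = s.num / s.den := (Rat.num_div_den s).symm
  have h1 : ((r.num : ℚ) ^ 4 + (r.den : ℚ) ^ 4) * (s.den : ℚ) ^ 2
      = ((s.num : ℚ) * (r.den : ℚ) ^ 2) ^ 2 := by
    have h2 : ((r.num : ℚ) / r.den) ^ 4 + 1 = ((s.num : ℚ) / s.den) ^ 2 := by
      rw [← e1, ← e2, h]
    field_simp at h2
    linear_combination h2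
  have h2 : (r.num ^ 4 + (r.den : ℤ) ^ 4) * (s.den : ℤ) ^ 2 = (s.num * (r.den : ℤ) ^ 2) ^ 2 := by
    exact_mod_cast h1
  have h3 : (s.den : ℤ) ^ 2 ∣ (s.num * (r.den : ℤ) ^ 2) ^ 2 := Dvd.intro_left _ h2
  obtain ⟨e, he⟩ := (Int.pow_dvd_pow_iff two_ne_zero).1 h3
  rw [he] at h2
  have h4 : r.num ^ 4 + (r.den : ℤ) ^ 4 = e ^ 2 := by
    have h5 : (s.den : ℤ) ^ 2 ≠ 0 := pow_ne_zero 2 hd
    apply mul_right_cancel₀ h5
    linear_combination h2
  exact not_fermat_42 ha hb h4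

/-- The valuations of `x` and of `x² + 1` are even. -/
theorem even_aux (p : ℕ) [Fact p.Prime] (x y : ℚ_[p]) (h : y ^ 2 = x ^ 3 + x) (hy : y ≠ 0) :
    ∃ z z' : ℚ_[p], z ≠ 0 ∧ z' ≠ 0 ∧ ‖x‖ = ‖z‖ ^ 2 ∧ ‖x ^ 2 + 1‖ = ‖z'‖ ^ 2 := by
  have h1 : y ^ 2 = x * (x ^ 2 + 1) := by rw [h]; ring
  have hx : x ≠ 0 := by
    intro h0
    rw [h0, zero_mul] at h1
    exact hy (pow_eq_zero_iff two_ne_zero |>.1 h1)
  have hn : ‖y‖ ^ 2 = ‖x‖ * ‖x ^ 2 + 1‖ := by rw [← norm_pow, h1, norm_mul]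
  have hx0 : 0 < ‖x‖ := norm_pos_iff.2 hx
  rcases lt_trichotomy ‖x‖ 1 with hlt | heq | hgt
  · have h2 : ‖x ^ 2 + 1‖ = 1 := by
      have h3 : ‖x ^ 2‖ < 1 := by
        rw [norm_pow]
        exact pow_lt_one₀ (norm_nonneg _) hlt two_ne_zero
      rw [IsUltrametricDist.norm_add_eq_max_of_norm_ne_norm (by rw [norm_one]; exact h3.ne),
        norm_one, max_eq_right h3.le]
    refine ⟨y, 1, hy, one_ne_zero, ?_, ?_⟩
    · rw [hn, h2, mul_one]
    · rw [h2, norm_one, one_pow]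
  · refine ⟨1, y, one_ne_zero, hy, ?_, ?_⟩
    · rw [heq, norm_one, one_pow]
    · rw [hn, heq, one_mul]
  · have h2 : ‖x ^ 2 + 1‖ = ‖x‖ ^ 2 := by
      have h3 : 1 < ‖x ^ 2‖ := by
        rw [norm_pow]
        exact one_lt_pow₀ hgt two_ne_zero
      rw [IsUltrametricDist.norm_add_eq_max_of_norm_ne_norm (by rw [norm_one]; exact h3.ne'),
        norm_one, max_eq_left h3.le, norm_pow]
    refine ⟨y / x, x, div_ne_zero hy hx, hx, ?_, h2⟩
    rw [norm_div, div_pow, hn, h2]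
    field_simp

theorem at_fin (P : AdelicPoint RR) (u : RR) (hu : IsUnit u) :
    {p : Nat.Primes | ‖P.at p u‖ ≠ 1}.Finite := by
  obtain ⟨v, hv⟩ := hu.exists_right_inv
  have h1 : ∀ᶠ p : Nat.Primes in Filter.cofinite, ‖P.at p u‖ ≤ 1 := (P u).2.2
  have h2 : ∀ᶠ p : Nat.Primes in Filter.cofinite, ‖P.at p v‖ ≤ 1 := (P v).2.2
  refine Set.Finite.subset (Filter.mem_cofinite.1 (h1.and h2)) ?_
  intro p hp hmem
  obtain ⟨h3, h4⟩ := hmem
  apply hp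
  have h5 : ‖P.at p u‖ * ‖P.at p v‖ = 1 := by
    rw [← norm_mul, ← map_mul, hv, map_one, norm_one]
  refine le_antisymm h3 ?_
  by_contra h6
  push Not at h6
  have : ‖P.at p u‖ * ‖P.at p v‖ < 1 :=
    (mul_le_of_le_one_right (norm_nonneg _) h4).trans_lt h6
  exact this.ne h5

theorem brauerManinSet_empty (Ireal : LocalInvariant ℝ)
    (I : ∀ p : Nat.Primes, LocalInvariant ℚ_[(p : ℕ)]) : BrauerManinSet RR Ireal I = ∅ := by
  rw [Set.eq_empty_iff_forall_notMem]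
  intro P hP
  have hlocal (p : Nat.Primes) := even_aux (p : ℕ) (P.at p xx) (P.at p yy)
    (by rw [← map_pow, yy_sq, map_add, map_pow]) (isUnit_yy.map (P.at p)).ne_zero
  choose z z' hz hz' hxz hxz' using hlocal
  -- finiteness
  have hf1 : {p : Nat.Primes | ‖z p‖ ≠ 1}.Finite := by
    refine (at_fin P xx isUnit_xx).subset ?_
    intro p hp h1
    apply hp
    have h2 : ‖z p‖ ^ 2 = 1 := by rw [← hxz, h1]
    exact (pow_eq_one_iff_of_nonneg (norm_nonneg _) two_ne_zero).1 h2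
  have hf2 : {p : Nat.Primes | ‖z' p‖ ≠ 1}.Finite := by
    refine (at_fin P (xx ^ 2 + 1) isUnit_xx').subset ?_
    intro p hp h1
    apply hp
    have h2 : ‖z' p‖ ^ 2 = 1 := by
      rw [← hxz', ← h1, map_add, map_pow, map_one]
    exact (pow_eq_one_iff_of_nonneg (norm_nonneg _) two_ne_zero).1 h2
  obtain ⟨r, hr0, hr⟩ := exists_rat_norm' z hz hf1
  obtain ⟨s, hs0, hs⟩ := exists_rat_norm' z' hz' hf2
  have hD : r ^ 4 + 1 - s ^ 2 ≠ 0 := sub_ne_zero.2 (fermat r s hr0.ne')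
  obtain ⟨N1, hN1⟩ := norm_eq_one_of_large r hr0.ne'
  obtain ⟨N2, hN2⟩ := norm_eq_one_of_large s hs0.ne'
  obtain ⟨N3, hN3⟩ := norm_eq_one_of_large _ hD
  obtain ⟨p, hpN, hpp⟩ := Nat.exists_infinite_primes (N1 + N2 + N3 + 3)
  have hfact : Fact p.Prime := ⟨hpp⟩
  let p' : Nat.Primes := ⟨p, hpp⟩
  have h1 := hN1 p (by omega)
  have h2 := hN2 p (by omega)
  have h3 := hN3 p (by omega)
  -- the units
  obtain ⟨U, hU⟩ := isUnit_xx
  obtain ⟨V, hV⟩ := isUnit_xx'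
  have hrr : r ^ 2 ≠ 0 := pow_ne_zero 2 hr0.ne'
  have hss : s ^ 2 ≠ 0 := pow_ne_zero 2 hs0.ne'
  let a : RRˣ := Units.map (algebraMap ℚ RR : ℚ →* RR) (Units.mk0 (r ^ 2) hrr)
  let b : RRˣ := Units.map (algebraMap ℚ RR : ℚ →* RR) (Units.mk0 (s ^ 2) hss)
  have haa {K : Type} [Field K] [CharZero K] (f : RR →+* K) (q : ℚ) : f (algebraMap ℚ RR q) = (q : K) := by
    have : f.comp (algebraMap ℚ RR) = Rat.castHom K := RingHom.ext_rat _ _
    exact congrArg (fun g : ℚ →+* K => g q) this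
  have hdiv {K : Type} [Field K] [CharZero K] (f : RR →+* K) (W : RRˣ) (q : ℚ) (hq : q ≠ 0) :
      f ((W / Units.map (algebraMap ℚ RR : ℚ →* RR) (Units.mk0 q hq) : RRˣ) : RR)
        = f W / (q : K) := by
    have hq' : (q : K) ≠ 0 := by exact_mod_cast hq
    rw [eq_div_iff hq', ← haa f q, ← map_mul]
    congr 1
    have : (W / Units.map (algebraMap ℚ RR : ℚ →* RR) (Units.mk0 q hq)) *
      Units.map (algebraMap ℚ RR : ℚ →* RR) (Units.mk0 q hq) = W := div_mul_cancel _ _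
    exact congrArg Units.val this
  -- the real place
  have hreal : 0 < P.real xx := by
    have h5 : (P.real yy) ^ 2 = P.real xx * ((P.real xx) ^ 2 + 1) := by
      rw [← map_pow, yy_sq, map_add, map_pow]; ring
    have h6 : 0 < (P.real yy) ^ 2 := by
      have : P.real yy ≠ 0 := (isUnit_yy.map P.real).ne_zero
      positivity
    rw [h5] at h6
    by_contra hneg
    push Not at hneg
    exact absurd h6 (not_lt.2 (mul_nonpos_of_nonpos_of_nonneg hneg (by positivity)))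
  have hlt1 : ‖P.at p' ((U / a : RRˣ) : RR) - 1‖ < 1 := by
    refine norm_sub_one_lt Ireal I P hP (U / a) ?_ ?_ p' ?_
    · rw [hdiv, hU]
      exact div_pos hreal (by exact_mod_cast pow_pos hr0 2)
    · intro ℓ
      rw [hdiv, hU, norm_div, hxz, Rat.cast_pow, norm_pow, hr]
      exact div_self (pow_ne_zero 2 (norm_ne_zero_iff.2 (hz ℓ)))
    · change p ≠ 2
      omega
  have hlt2 : ‖P.at p' ((V / b : RRˣ) : RR) - 1‖ < 1 := by
    refine norm_sub_one_lt Ireal I P hP (V / b) ?_ ?_ p' ?_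
    · rw [hdiv, hV, map_add, map_pow, map_one]
      exact div_pos (by positivity) (by exact_mod_cast pow_pos hs0 2)
    · intro ℓ
      rw [hdiv, hV, map_add, map_pow, map_one, norm_div, hxz', Rat.cast_pow, norm_pow, hs]
      exact div_self (pow_ne_zero 2 (norm_ne_zero_iff.2 (hz' ℓ)))
    · change p ≠ 2
      omega
  rw [hdiv, hU] at hlt1
  rw [hdiv, hV, map_add, map_pow, map_one] at hlt2
  -- the contradiction
  have h1' : ‖((r : ℚ) : ℚ_[(p' : ℕ)])‖ = 1 := h1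
  have h2' : ‖((s : ℚ) : ℚ_[(p' : ℕ)])‖ = 1 := h2
  have h3' : ‖(((r ^ 4 + 1 - s ^ 2 : ℚ)) : ℚ_[(p' : ℕ)])‖ = 1 := h3
  have hr' : ((r : ℚ) : ℚ_[(p' : ℕ)]) ≠ 0 := by
    intro h0; rw [h0, norm_zero] at h1'; exact zero_ne_one h1'
  have hs' : ((s : ℚ) : ℚ_[(p' : ℕ)]) ≠ 0 := by
    intro h0; rw [h0, norm_zero] at h2'; exact zero_ne_one h2'
  set x : ℚ_[(p' : ℕ)] := P.at p' xx with hxdef
  set ρ : ℚ_[(p' : ℕ)] := ((r : ℚ) : ℚ_[(p' : ℕ)]) with hρ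
  set τ : ℚ_[(p' : ℕ)] := ((s : ℚ) : ℚ_[(p' : ℕ)]) with hτ
  have hx1 : ‖x - ρ ^ 2‖ < 1 := by
    have : x - ρ ^ 2 = ρ ^ 2 * (x / ((r ^ 2 : ℚ) : ℚ_[(p' : ℕ)]) - 1) := by
      rw [Rat.cast_pow, ← hρ]
      field_simp
    rw [this, norm_mul, norm_pow, h1', one_pow, one_mul]
    exact hlt1
  have hx2 : ‖x ^ 2 + 1 - τ ^ 2‖ < 1 := by
    have : x ^ 2 + 1 - τ ^ 2 = τ ^ 2 * ((x ^ 2 + 1) / ((s ^ 2 : ℚ) : ℚ_[(p' : ℕ)]) - 1) := by
      rw [Rat.cast_pow, ← hτ]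
      field_simp
    rw [this, norm_mul, norm_pow, h2', one_pow, one_mul]
    exact hlt2
  have hx3 : ‖x + ρ ^ 2‖ ≤ 1 := by
    have : x + ρ ^ 2 = (x - ρ ^ 2) + 2 * ρ ^ 2 := by ring
    rw [this]
    refine (IsUltrametricDist.norm_add_le_max _ _).trans (max_le hx1.le ?_)
    rw [norm_mul, norm_pow, h1', one_pow, mul_one]
    have := Padic.norm_int_le_one (p := (p' : ℕ)) 2
    exact_mod_cast this
  have h4 : ‖(((r ^ 4 + 1 - s ^ 2 : ℚ)) : ℚ_[(p' : ℕ)])‖ < 1 := by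
    have : (((r ^ 4 + 1 - s ^ 2 : ℚ)) : ℚ_[(p' : ℕ)])
        = (x ^ 2 + 1 - τ ^ 2) + (-(x - ρ ^ 2) * (x + ρ ^ 2)) := by
      push_cast
      rw [← hρ, ← hτ]
      ring
    rw [this]
    refine (IsUltrametricDist.norm_add_le_max _ _).trans_lt (max_lt hx2 ?_)
    rw [norm_mul, norm_neg]
    exact (mul_le_of_le_one_right (norm_nonneg _) hx3).trans_lt hx1
  exact h4.ne h3'

end Pool.Agent.W620.SB
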