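import Pool.Agent.W620.SB.Cyc

/-! # Local norms away from `p` and at the real place -/

set_option autoImplicit false

open Polynomial Module TensorProduct

namespace Pool.Agent.W620.SB

section

variable (L : Type) [Field L] [NumberField L] (B : Type) [CommRing B] [Algebra ℚ B]

/-- The action of the Galois group on `L ⊗ B`. -/
noncomputable def gAct (g : Gal(L/ℚ)) : L ⊗[ℚ] B →ₐ[ℚ] L ⊗[ℚ] B :=
  Algebra.TensorProduct.map (g : L →ₐ[ℚ] L) (AlgHom.id ℚ B)

theorem gAct_tmul (g : Gal(L/ℚ)) (l : L) (b : B) : gAct L B g (l ⊗ₜ b) = (g l) ⊗ₜ b := rfl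

variable {L B}

/-- The norm. -/
noncomputable def Nm (w : L ⊗[ℚ] B) : L ⊗[ℚ] B := ∏ g : Gal(L/ℚ), gAct L B g w

theorem Nm_mul (v w : L ⊗[ℚ] B) : Nm (v * w) = Nm v * Nm w := by
  unfold Nm
  simp_rw [map_mul]
  exact Finset.prod_mul_distrib

theorem Nm_left [IsGalois ℚ L] (l : L) :
    Nm (l ⊗ₜ (1 : B)) = 1 ⊗ₜ algebraMap ℚ B (Algebra.norm ℚ l) := by
  unfold Nm
  have h := Algebra.norm_eq_prod_automorphisms ℚ l
  have h1 := congrArg (Algebra.TensorProduct.includeLeft : L →ₐ[ℚ] L ⊗[ℚ] B) h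
  rw [map_prod] at h1
  simp only [Algebra.TensorProduct.includeLeft_apply] at h1
  simp_rw [gAct_tmul]
  rw [← h1, Algebra.algebraMap_eq_smul_one, Algebra.algebraMap_eq_smul_one, TensorProduct.smul_tmul]

end

section

variable (p : ℕ) [hp : Fact p.Prime] (L : Type) [Field L] [NumberField L]
  [IsCyclotomicExtension {p} ℚ L] [IsGalois ℚ L]

theorem card_gal : Fintype.card Gal(L/ℚ) = p - 1 := by
  rw [← Nat.card_eq_fintype_card, IsGalois.card_aut_eq_finrank, IsCyclotomicExtension.finrank (n := p) L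
      (cyclotomic.irreducible_rat hp.out.pos), Nat.totient_prime hp.out]

omit [IsGalois ℚ L] in
theorem gal_ext {g h : Gal(L/ℚ)} (hgh : g (zt p L) = h (zt p L)) : g = h := by
  have h1 : (g : L →ₐ[ℚ] L) = (h : L →ₐ[ℚ] L) := by
    apply ((zt_spec p L).powerBasis ℚ).algHom_ext
    rw [IsPrimitiveRoot.powerBasis_gen]
    exact hgh
  ext x
  exact congrArg (fun f : L →ₐ[ℚ] L => f x) h1

theorem prod_gal : ∏ g : Gal(L/ℚ), (X - C (g (zt p L))) = cyclotomic p L := by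
  classical
  rw [cyclotomic_eq_prod_X_sub_primitiveRoots (zt_spec p L)]
  have h : Finset.univ.image (fun g : Gal(L/ℚ) => g (zt p L)) = primitiveRoots p L := by
    apply Finset.eq_of_subset_of_card_le
    · intro z hz
      obtain ⟨g, -, rfl⟩ := Finset.mem_image.1 hz
      exact (mem_primitiveRoots hp.out.pos).2 ((zt_spec p L).map_of_injective g.injective)
    · rw [(zt_spec p L).card_primitiveRoots, Finset.card_image_of_injective _ (fun g h => gal_ext p L),
        Finset.card_univ, card_gal p, Nat.totient_prime hp.out]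
  rw [← h, Finset.prod_image (fun g _ h _ => gal_ext p L)]

variable {B : Type} [CommRing B] [Algebra ℚ B]

theorem prod_eval (T : L ⊗[ℚ] B) :
    ∏ g : Gal(L/ℚ), (T - (g (zt p L)) ⊗ₜ 1) = ∑ i ∈ Finset.range p, T ^ i := by
  have h := congrArg (eval₂ (Algebra.TensorProduct.includeLeftRingHom : L →+* L ⊗[ℚ] B) T)
    (prod_gal p L)
  rw [eval₂_finsetProd, cyclotomic_prime, eval₂_finsetSum] at h
  simpa using h

theorem Nm_one_sub (t t' : B) (ht : t * t' = 1) :
    Nm (1 - (zt p L) ⊗ₜ[ℚ] t) = 1 ⊗ₜ (∑ i ∈ Finset.range p, t ^ i) := by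
  unfold Nm
  have h1 (g : Gal(L/ℚ)) : gAct L B g (1 - (zt p L) ⊗ₜ[ℚ] t)
      = (1 ⊗ₜ t) * ((1 ⊗ₜ t') - (g (zt p L)) ⊗ₜ 1) := by
    rw [map_sub, map_one, gAct_tmul, mul_sub, Algebra.TensorProduct.tmul_mul_tmul,
      Algebra.TensorProduct.tmul_mul_tmul, ht, one_mul, one_mul, mul_one,
      Algebra.TensorProduct.one_def]
  simp_rw [h1]
  rw [Finset.prod_mul_distrib, prod_eval p L, Finset.prod_const, Finset.card_univ, card_gal p L,
    Finset.mul_sum, TensorProduct.tmul_sum]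
  rw [← Finset.sum_range_reflect (fun i => (1 : L) ⊗ₜ[ℚ] (t ^ i))]
  refine Finset.sum_congr rfl fun i hi => ?_
  rw [Finset.mem_range] at hi
  rw [Algebra.TensorProduct.tmul_pow, Algebra.TensorProduct.tmul_pow, one_pow, one_pow,
    Algebra.TensorProduct.tmul_mul_tmul, one_mul]
  congr 1
  have h2 : p - 1 = (p - 1 - i) + i := by omega
  calc t ^ (p - 1) * t' ^ i = t ^ ((p - 1 - i) + i) * t' ^ i := by rw [← h2]
    _ = t ^ (p - 1 - i) * (t * t') ^ i := by ring
    _ = t ^ (p - 1 - i) := by rw [ht, one_pow, mul_one]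

theorem unit_is_norm (ℓ : ℕ) [hℓ : Fact ℓ.Prime] (hne : ℓ ≠ p) (u : ℚ_[ℓ]) (hu : ‖u‖ = 1) :
    ∃ w : L ⊗[ℚ] ℚ_[ℓ], Nm w = 1 ⊗ₜ u := by
  let u' : ℤ_[ℓ] := ⟨u, hu.le⟩
  have hc : PadicInt.toZMod u' ≠ 0 := by
    intro h
    rw [← RingHom.mem_ker, PadicInt.ker_toZMod, IsLocalRing.mem_maximalIdeal, mem_nonunits_iff,
      PadicInt.isUnit_iff] at h
    exact h hu
  obtain ⟨α, m, hα, hm⟩ := exists_int_norm p L ℓ hne _ hc
  -- the quotient
  have hmn : ‖(m : ℤ_[ℓ])‖ = 1 := by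
    rw [← PadicInt.isUnit_iff]
    by_contra h
    have h2 : (m : ℤ_[ℓ]) ∈ RingHom.ker (PadicInt.toZMod (p := ℓ)) := by
      rw [PadicInt.ker_toZMod, IsLocalRing.mem_maximalIdeal]
      exact h
    rw [RingHom.mem_ker, map_intCast, hm] at h2
    exact hc h2
  obtain ⟨m', hm'⟩ := (PadicInt.isUnit_iff.2 hmn).exists_right_inv
  let v : ℤ_[ℓ] := u' * m'
  have hv : ‖1 - v‖ < 1 := by
    have h2 : (1 - v) ∈ RingHom.ker (PadicInt.toZMod (p := ℓ)) := by
      rw [RingHom.mem_ker, map_sub, map_one, map_mul, ← hm]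
      have h3 := congrArg (PadicInt.toZMod (p := ℓ)) hm'
      rw [map_mul, map_intCast, map_one] at h3
      rw [h3, sub_self]
    rw [PadicInt.ker_toZMod, IsLocalRing.mem_maximalIdeal, PadicInt.mem_nonunits] at h2
    exact h2
  obtain ⟨t, ht, -⟩ := hensels_lemma (R := ℤ_[ℓ])
    (F := (∑ i ∈ Finset.range p, X ^ i - C v : ℤ_[ℓ][X])) (a := 0) (by
      have hd : aeval (0 : ℤ_[ℓ]) (derivative (∑ i ∈ Finset.range p, X ^ i - C v : ℤ_[ℓ][X])) = 1 := by
        rw [derivative_sub, derivative_C, sub_zero, derivative_sum, map_sum,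
          Finset.sum_eq_single 1]
        · simp
        · intro i _ hi
          rw [derivative_X_pow]
          rcases Nat.eq_zero_or_pos i with h0 | h0
          · simp [h0]
          · simp [zero_pow (show i - 1 ≠ 0 by omega)]
        · intro h; exact absurd (Finset.mem_range.2 hp.out.one_lt) h
      have he : aeval (0 : ℤ_[ℓ]) (∑ i ∈ Finset.range p, X ^ i - C v : ℤ_[ℓ][X]) = 1 - v := by
        rw [map_sub, map_sum, Finset.sum_eq_single 0]
        · simp
        · intro i _ hi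
          simp [zero_pow hi]
        · intro h; exact absurd (Finset.mem_range.2 hp.out.pos) h
      rw [hd, he, norm_one, one_pow]
      exact hv)
  have ht' : ∑ i ∈ Finset.range p, t ^ i = v := by
    simpa [sub_eq_zero] using ht
  have hmu : (m : ℤ_[ℓ]) * v = u' := by
    change (m : ℤ_[ℓ]) * (u' * m') = u'
    linear_combination u' * hm'
  have hmu' : (m : ℚ_[ℓ]) * (v : ℚ_[ℓ]) = u := by
    have := congrArg (fun z : ℤ_[ℓ] => (z : ℚ_[ℓ])) hmu
    simpa using this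
  by_cases ht0 : t = 0
  · refine ⟨α ⊗ₜ 1, ?_⟩
    rw [Nm_left, hα]
    congr 1
    rw [ht0] at ht'
    have hv1 : v = 1 := by
      rw [← ht', Finset.sum_eq_single 0]
      · simp
      · intro i _ hi
        exact zero_pow hi
      · intro h; exact absurd (Finset.mem_range.2 hp.out.pos) h
    rw [hv1] at hmu'
    rw [← hmu']
    simp
  · have ht0' : (t : ℚ_[ℓ]) ≠ 0 := by
      intro h
      exact ht0 (Subtype.ext h)
    refine ⟨(α ⊗ₜ 1) * (1 - (zt p L) ⊗ₜ[ℚ] (t : ℚ_[ℓ])), ?_⟩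
    rw [Nm_mul, Nm_left, hα, Nm_one_sub p L (t : ℚ_[ℓ]) (t : ℚ_[ℓ])⁻¹ (mul_inv_cancel₀ ht0'),
      Algebra.TensorProduct.tmul_mul_tmul, one_mul]
    congr 1
    have h5 : (∑ i ∈ Finset.range p, (t : ℚ_[ℓ]) ^ i) = (v : ℚ_[ℓ]) := by
      rw [← ht']
      have h6 := map_sum (PadicInt.Coe.ringHom (p := ℓ)) (fun i => t ^ i) (Finset.range p)
      simp only [map_pow] at h6
      exact h6.symm
    rw [h5, ← hmu']
    simp

end

theorem real_is_norm (L : Type) [Field L] [NumberField L] (u : ℝ) (hu : 0 < u) :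
    ∃ w : L ⊗[ℚ] ℝ, Nm w = 1 ⊗ₜ u := by
  refine ⟨1 ⊗ₜ (u ^ ((Fintype.card Gal(L/ℚ) : ℕ) : ℝ)⁻¹), ?_⟩
  unfold Nm
  simp_rw [gAct_tmul, map_one]
  rw [Finset.prod_const, Finset.card_univ, Algebra.TensorProduct.tmul_pow,
    one_pow, Real.rpow_inv_natCast_pow hu.le Fintype.card_ne_zero]

end Pool.Agent.W620.SB
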