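import Mathlib

/-! # The norm of a finite reduced algebra over a finite field is surjective -/

set_option autoImplicit false

open Polynomial Module

namespace Pool.Agent.W620.SB

section

variable {F A : Type*} [Field F] [CommRing A] [Algebra F A]
  {ι : Type*} [Fintype ι] [DecidableEq ι] (b : Basis ι F A)

/-- The norm form. -/
noncomputable def normForm : MvPolynomial ι F :=
  (∑ k, (MvPolynomial.X k : MvPolynomial ι F) •
    (Algebra.leftMulMatrix b (b k)).map (MvPolynomial.C : F →+* MvPolynomial ι F)).det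

theorem eval_normForm (x : ι → F) :
    MvPolynomial.eval x (normForm b) = Algebra.norm F (∑ k, x k • b k) := by
  unfold normForm
  rw [Algebra.norm_eq_matrix_det b, RingHom.map_det]
  congr 1
  ext i j
  rw [map_sum, Matrix.sum_apply, map_sum, Matrix.sum_apply]
  refine Finset.sum_congr rfl fun k _ => ?_
  rw [RingHom.mapMatrix_apply, Matrix.map_apply, Matrix.smul_apply, Matrix.map_apply, smul_eq_mul,
    map_mul, MvPolynomial.eval_X,
    MvPolynomial.eval_C, map_smul, Matrix.smul_apply, smul_eq_mul]

theorem totalDegree_normForm : (normForm b).totalDegree ≤ Fintype.card ι := by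
  unfold normForm
  rw [Matrix.det_apply]
  refine (MvPolynomial.totalDegree_finsetSum _ _).trans (Finset.sup_le fun σ _ => ?_)
  have h0 : ∀ (s : ℤˣ) (p : MvPolynomial ι F), (s • p).totalDegree = p.totalDegree := by
    intro s p
    rcases Int.units_eq_one_or s with rfl | rfl
    · rw [one_smul]
    · rw [Units.neg_smul, one_smul, MvPolynomial.totalDegree_neg]
  rw [h0]
  refine (MvPolynomial.totalDegree_finsetProd _ _).trans ?_
  rw [Fintype.card_eq_sum_ones]
  refine Finset.sum_le_sum fun i _ => ?_
  rw [Matrix.sum_apply]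
  refine (MvPolynomial.totalDegree_finsetSum _ _).trans (Finset.sup_le fun k _ => ?_)
  rw [Matrix.smul_apply, Matrix.map_apply, smul_eq_mul]
  refine (MvPolynomial.totalDegree_mul _ _).trans ?_
  rw [MvPolynomial.totalDegree_C, MvPolynomial.totalDegree_X]

end

theorem norm_eq_zero_of_not_isUnit {F A : Type*} [Field F] [CommRing A] [Algebra F A]
    [FiniteDimensional F A] (a : A) (ha : ¬ IsUnit a) : Algebra.norm F a = 0 := by
  by_contra h
  apply ha
  have h1 : IsUnit (Algebra.lmul F A a) := by
    rw [LinearMap.isUnit_iff_isUnit_det]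
    exact isUnit_iff_ne_zero.2 h
  obtain ⟨g, hg⟩ := h1.exists_right_inv
  refine IsUnit.of_mul_eq_one (g 1) ?_
  have := congrArg (fun f : A →ₗ[F] A => f 1) hg
  exact this

theorem norm_surj {F A : Type*} [Field F] [Finite F] [CommRing A] [Nontrivial A] [Algebra F A]
    [FiniteDimensional F A] [IsReduced A] (c : F) (hc : c ≠ 0) : ∃ a : A, Algebra.norm F a = c := by
  classical
  have := Fintype.ofFinite F
  have hfinA : Finite A := Module.finite_of_finite F
  have := Fintype.ofFinite A
  let b := Module.finBasis F A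
  let N : Aˣ →* Fˣ := Units.map (Algebra.norm F)
  suffices h : N.range = ⊤ by
    obtain ⟨a, ha⟩ := (MonoidHom.range_eq_top.1 h) (Units.mk0 c hc)
    exact ⟨a, congrArg Units.val ha⟩
  by_contra hne
  -- the exponent
  let m := Nat.card N.range
  have hcard : Nat.card Fˣ = Fintype.card F - 1 := by
    rw [Nat.card_eq_fintype_card, Fintype.card_units]
  have hm0 : 0 < m := Nat.card_pos
  have hm : m < Fintype.card F - 1 := by
    rw [← hcard]
    refine lt_of_le_of_ne (Subgroup.card_le_card_group _) fun h => hne ?_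
    exact Subgroup.eq_top_of_card_eq _ h
  have hpow (a : Aˣ) : (Algebra.norm F (a : A)) ^ m = 1 := by
    have h1 : (N a) ^ m = 1 := by
      have h2 : (⟨N a, ⟨a, rfl⟩⟩ : N.range) ^ m = 1 := pow_card_eq_one'
      exact congrArg Subtype.val h2
    exact congrArg Units.val h1
  have hsum1 : ∑ a : A, (Algebra.norm F a) ^ m = (Fintype.card Aˣ : F) := by
    have h1 : ∑ a : A, (Algebra.norm F a) ^ m = ∑ a : A, if IsUnit a then (1 : F) else 0 := by
      refine Finset.sum_congr rfl fun a _ => ?_
      split_ifs with h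
      · obtain ⟨u, rfl⟩ := h
        exact hpow u
      · rw [norm_eq_zero_of_not_isUnit a h, zero_pow hm0.ne']
    rw [h1, Finset.sum_boole]
    congr 1
    rw [← Fintype.card_subtype]
    exact Fintype.card_congr
      ⟨fun a => a.2.unit, fun a => ⟨a, a.isUnit⟩, fun a => Subtype.ext rfl, fun a => Units.ext rfl⟩
  have hsum2 : ∑ a : A, (Algebra.norm F a) ^ m = 0 := by
    have h1 : ∑ a : A, (Algebra.norm F a) ^ m
        = ∑ x : Fin (finrank F A) → F, MvPolynomial.eval x ((normForm b) ^ m) := by
      rw [← (b.equivFun.toEquiv.symm).sum_comp]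
      refine Finset.sum_congr rfl fun x _ => ?_
      rw [map_pow, eval_normForm]
      congr 2
      exact b.equivFun_symm_apply x
    rw [h1]
    apply MvPolynomial.sum_eval_eq_zero
    refine (MvPolynomial.totalDegree_pow _ _).trans_lt ?_
    refine (Nat.mul_le_mul_left m (totalDegree_normForm b)).trans_lt ?_
    refine Nat.mul_lt_mul_of_pos_right hm ?_
    rw [Fintype.card_fin]
    exact finrank_pos
  have hzero : (Fintype.card Aˣ : F) = 0 := by rw [← hsum1, hsum2]
  obtain ⟨ℓ, hℓ⟩ := CharP.exists F
  have hprime : Fact ℓ.Prime := ⟨CharP.char_is_prime F ℓ⟩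
  have hdvd : ℓ ∣ Fintype.card Aˣ := (CharP.cast_eq_zero_iff F ℓ _).1 hzero
  obtain ⟨u, hu⟩ := exists_prime_orderOf_dvd_card ℓ hdvd
  have : CharP A ℓ := charP_of_injective_algebraMap (algebraMap F A).injective ℓ
  have h1 : ((u : A) - 1) ^ ℓ = 0 := by
    rw [sub_pow_char, one_pow, ← Units.val_pow_eq_pow_val, ← hu, pow_orderOf_eq_one, Units.val_one,
      sub_self]
  have h2 : (u : A) - 1 = 0 := pow_eq_zero_iff hprime.1.ne_zero |>.1 h1
  have h3 : u = 1 := Units.ext (sub_eq_zero.1 h2)
  rw [h3, orderOf_one] at hu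
  exact hprime.1.one_lt.ne hu

/-- Norms are compatible with homomorphisms which map a basis to a basis. -/
theorem norm_compat {K K' A A' ι : Type*} [CommRing K] [CommRing K'] [CommRing A] [CommRing A']
    [Algebra K A] [Algebra K' A'] [Fintype ι] [DecidableEq ι] (b : Basis ι K A) (b' : Basis ι K' A')
    (φ : K →+* K') (f : A →+* A') (hf : ∀ c, f (algebraMap K A c) = algebraMap K' A' (φ c))
    (hb : ∀ i, f (b i) = b' i) (a : A) : Algebra.norm K' (f a) = φ (Algebra.norm K a) := by
  rw [Algebra.norm_eq_matrix_det b, Algebra.norm_eq_matrix_det b', RingHom.map_det]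
  congr 1
  ext i j
  rw [RingHom.mapMatrix_apply, Matrix.map_apply, Algebra.leftMulMatrix_eq_repr_mul,
    Algebra.leftMulMatrix_eq_repr_mul]
  have h1 : f (a * b j) = ∑ k, φ (b.repr (a * b j) k) • b' k := by
    conv_lhs => rw [← b.sum_repr (a * b j)]
    rw [map_sum]
    refine Finset.sum_congr rfl fun k _ => ?_
    rw [Algebra.smul_def, map_mul, hf, hb, Algebra.smul_def]
  rw [← hb, ← map_mul, h1, map_sum, Finsupp.finsetSum_apply, Finset.sum_eq_single i]
  · simp
  · intro k _ hk
    simp [hk]
  · intro h; exact absurd (Finset.mem_univ i) h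

end Pool.Agent.W620.SB
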