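import Pool.Agent.W620.SB.Act2

/-! # Fundamental groups, sections and the splitting condition over the rational numbers -/

set_option autoImplicit false

open CategoryTheory AlgebraicGeometry Limits

namespace Pool.Agent.W620.SB

/-- A finite étale cover of the scheme `U`. -/
structure FinEt (U : Scheme.{0}) where
  /-- the covering scheme -/
  Y : Scheme.{0}
  /-- the structure morphism -/
  f : Y ⟶ U
  finite : IsFinite f
  etale : Etale f

section

variable {Ω : Type} [Field Ω] {U : Scheme.{0}}

/-- The fibre of the finite étale cover `E` above the geometric point `u`. -/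
def Fib (u : Spec (.of Ω) ⟶ U) (E : FinEt U) : Type :=
  {φ : Spec (.of Ω) ⟶ E.Y // φ ≫ E.f = u}

/-- The map of fibres given by a morphism of finite étale covers. -/
noncomputable def Fib.map {u : Spec (.of Ω) ⟶ U} {E E' : FinEt U} (h : E.Y ⟶ E'.Y) (w : h ≫ E'.f = E.f)
    (φ : Fib u E) : Fib u E' :=
  ⟨φ.1 ≫ h, by rw [Category.assoc, w, φ.2]⟩

/-- The étale fundamental group `π₁(U, u)`: the automorphisms of the fibre functor, i.e. families
of permutations of the fibres of all finite étale covers which are compatible with all morphisms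
of covers. -/
@[ext]
structure Pi1 (u : Spec (.of Ω) ⟶ U) where
  /-- the permutation of the fibre of `E` -/
  act : ∀ E : FinEt U, Equiv.Perm (Fib u E)
  nat : ∀ (E E' : FinEt U) (h : E.Y ⟶ E'.Y) (w : h ≫ E'.f = E.f) (φ : Fib u E),
    act E' (φ.map h w) = (act E φ).map h w

variable {u : Spec (.of Ω) ⟶ U}

/-- The group structure on `π₁(U, u)`. -/
noncomputable instance : Group (Pi1 u) where
  one := ⟨fun _ => 1, fun _ _ _ _ _ => rfl⟩
  mul γ δ := ⟨fun E => γ.act E * δ.act E, fun E E' h w φ => by
    rw [Equiv.Perm.mul_apply, Equiv.Perm.mul_apply, δ.nat, γ.nat]⟩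
  inv γ := ⟨fun E => (γ.act E)⁻¹, fun E E' h w φ => by
    rw [Equiv.Perm.inv_eq_iff_eq, γ.nat]
    simp⟩
  mul_assoc _ _ _ := Pi1.ext (funext fun _ => mul_assoc _ _ _)
  one_mul _ := Pi1.ext (funext fun _ => one_mul _)
  mul_one _ := Pi1.ext (funext fun _ => mul_one _)
  inv_mul_cancel _ := Pi1.ext (funext fun _ => inv_mul_cancel _)

/-- The topology of `π₁(U, u)`: the coarsest topology for which all maps `γ ↦ γ φ`, `φ` in the
fibre of a finite étale cover, are continuous for the discrete topology on the fibre. -/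
instance : TopologicalSpace (Pi1 u) :=
  ⨅ (E : FinEt U) (φ : Fib u E), TopologicalSpace.induced (fun γ => γ.act E φ) ⊥

end

section splitting

/-- The pull-back to `U` of a finite étale cover of `Spec ℚ`. -/
noncomputable def FinEt.pull {U : Scheme.{0}} (p : U ⟶ Spec (.of ℚ)) (E : FinEt (Spec (.of ℚ))) :
    FinEt U where
  Y := pullback p E.f
  f := pullback.fst p E.f
  finite := by have := E.finite; infer_instance
  etale := by have := E.etale; infer_instance

theorem toSpecQ_ext {Ω : Type} [Field Ω] (a b : Spec (.of Ω) ⟶ Spec (.of ℚ)) : a = b := by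
  have h : Spec.preimage a = Spec.preimage b := by
    ext1
    exact RingHom.ext_rat _ _
  rw [← Spec.map_preimage a, ← Spec.map_preimage b, h]

variable {Ω : Type} [Field Ω] {U : Scheme.{0}} (p : U ⟶ Spec (.of ℚ)) (u : Spec (.of Ω) ⟶ U)
  (ι : Qb →+* Ω)

/-- A geometric point `ψ : Spec ℚ̄ → E` of a finite étale cover of `Spec ℚ` gives a point of the
fibre of `U ×_ℚ E` above `u`; here `ι : ℚ̄ → Ω` is an embedding. -/
noncomputable def basePt (E : FinEt (Spec (.of ℚ))) (ψ : Spec (.of Qb) ⟶ E.Y) :
    Fib u (E.pull p) :=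
  ⟨pullback.lift u (Spec.map (CommRingCat.ofHom ι) ≫ ψ) (toSpecQ_ext _ _),
    pullback.lift_fst _ _ _⟩

/-- `s : G_ℚ → π₁(U, u)` is a splitting of `π₁(U, u) → G_ℚ`: it is continuous, and `s(g)` acts on
the fibres of the covers which come from `Spec ℚ` in the way `g` does. -/
def IsSplitting (s : GQ →* Pi1 u) : Prop :=
  Continuous s ∧ ∀ (g : GQ) (E : FinEt (Spec (.of ℚ))) (ψ : Spec (.of Qb) ⟶ E.Y),
    (s g).act (E.pull p) (basePt p u ι E ψ) =
      basePt p u ι E (Spec.map (CommRingCat.ofHom (g : Qb →+* Qb)) ≫ ψ)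

/-- The splitting condition for the scheme `X` over `ℚ`: for every dense open subset `U` of `X` the
homomorphism `π₁(U) → G_ℚ` has a splitting (for some, equivalently for every, geometric point of
`U`). -/
def SplittingCondition {X : Scheme.{0}} (p : X ⟶ Spec (.of ℚ)) : Prop :=
  ∀ U : X.Opens, Dense (U : Set X) →
    ∃ (Ω : Type) (_ : Field Ω) (_ : IsAlgClosed Ω) (u : Spec (.of Ω) ⟶ U) (ι : Qb →+* Ω)
      (s : GQ →* Pi1 u), IsSplitting (U.ι ≫ p) u ι s

end splitting

end Pool.Agent.W620.SB
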