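import Pool.Agent.W620.SB.Pi1

/-! # Sections from rational points on the boundary -/

set_option autoImplicit false

open CategoryTheory AlgebraicGeometry Limits Polynomial

namespace Pool.Agent.W620.SB

/-- The automorphism of `Spec Om` given by `g`. -/
noncomputable def sg (g : GQ) : Spec (.of Om) ⟶ Spec (.of Om) :=
  Spec.map (CommRingCat.ofHom (gact g))

theorem sg_mul (g h : GQ) : sg (g * h) = sg g ≫ sg h := by
  unfold sg
  rw [← Spec.map_comp]
  congr 1

theorem sg_one : sg 1 = 𝟙 _ := by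
  unfold sg
  rw [← Spec.map_id]
  congr 1

section

variable {U : Scheme.{0}} {u : Spec (.of Om) ⟶ U} (hu : ∀ g : GQ, sg g ≫ u = u)

/-- The action of `g` on the fibres. -/
noncomputable def secAct (g : GQ) (E : FinEt U) : Equiv.Perm (Fib u E) where
  toFun φ := ⟨sg g ≫ φ.1, by rw [Category.assoc, φ.2, hu]⟩
  invFun φ := ⟨sg g⁻¹ ≫ φ.1, by rw [Category.assoc, φ.2, hu]⟩
  left_inv φ := by
    apply Subtype.ext
    change sg g⁻¹ ≫ sg g ≫ φ.1 = φ.1
    rw [← Category.assoc, ← sg_mul, inv_mul_cancel, sg_one, Category.id_comp]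
  right_inv φ := by
    apply Subtype.ext
    change sg g ≫ sg g⁻¹ ≫ φ.1 = φ.1
    rw [← Category.assoc, ← sg_mul, mul_inv_cancel, sg_one, Category.id_comp]

/-- The section. -/
noncomputable def sec : GQ →* Pi1 u where
  toFun g := ⟨secAct hu g, fun E E' h w φ => by
    apply Subtype.ext
    change sg g ≫ φ.1 ≫ h = (sg g ≫ φ.1) ≫ h
    rw [Category.assoc]⟩
  map_one' := by
    apply Pi1.ext
    funext E
    ext1 φ
    apply Subtype.ext
    change sg 1 ≫ φ.1 = φ.1
    rw [sg_one, Category.id_comp]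
  map_mul' g h := by
    apply Pi1.ext
    funext E
    ext1 φ
    apply Subtype.ext
    change sg (g * h) ≫ φ.1 = sg g ≫ sg h ≫ φ.1
    rw [sg_mul, Category.assoc]

theorem sec_act (g : GQ) (E : FinEt U) (φ : Fib u E) : ((sec hu g).act E φ).1 = sg g ≫ φ.1 := rfl

/-- The range of a morphism from the spectrum of a field is a point. -/
theorem range_subset {K : Type} [Field K] {Y : Scheme.{0}} (φ : Spec (.of K) ⟶ Y) (W : Y.Opens)
    (z : Spec (.of K)) (hz : φ z ∈ W) : Set.range φ ⊆ (W : Set Y) := by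
  rintro _ ⟨y, rfl⟩
  have : Subsingleton (Spec (.of K)) := inferInstanceAs (Subsingleton (PrimeSpectrum K))
  rw [Subsingleton.elim y z]
  exact hz

include hu in
theorem isOpen_stab (E : FinEt U) (φ : Fib u E) : IsOpen {g : GQ | sg g ≫ φ.1 = φ.1} := by
  have := E.finite
  have : Nonempty (Spec (.of Om)) := inferInstanceAs (Nonempty (PrimeSpectrum Om))
  let z : Spec (.of Om) := Classical.arbitrary _
  obtain ⟨V, hV, hzV, -⟩ := exists_isAffineOpen_mem_and_subset (U := ⊤) (x := u z) trivial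
  have hW : IsAffineOpen (E.f ⁻¹ᵁ V) := hV.preimage E.f
  have hzW : φ.1 z ∈ E.f ⁻¹ᵁ V := by
    change E.f (φ.1 z) ∈ V
    rw [← Scheme.Hom.comp_apply, φ.2]
    exact hzV
  -- the ring homomorphisms
  obtain ⟨a, ha⟩ : ∃ a : Γ(E.Y, E.f ⁻¹ᵁ V) ⟶ CommRingCat.of Om, Spec.map a ≫ hW.fromSpec = φ.1 := by
    refine ⟨Spec.preimage (IsOpenImmersion.lift hW.fromSpec φ.1 ?_), ?_⟩
    · rw [hW.range_fromSpec]
      exact range_subset _ _ z hzW
    · rw [Spec.map_preimage, IsOpenImmersion.lift_fac]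
  let b : Γ(U, V) ⟶ CommRingCat.of Om := E.f.app V ≫ a
  have hb : Spec.map b ≫ hV.fromSpec = u := by
    have h1 := hV.SpecMap_appLE_fromSpec E.f hW le_rfl
    have h2 : E.f.appLE V (E.f ⁻¹ᵁ V) le_rfl = E.f.app V := by
      rw [Scheme.Hom.appLE_eq_app]
    rw [h2] at h1
    rw [Spec.map_comp, Category.assoc, h1, ← Category.assoc, ha, φ.2]
  have hfix (g : GQ) (c : Γ(U, V)) : gact g (b.hom c) = b.hom c := by
    have h1 : Spec.map (b ≫ CommRingCat.ofHom (gact g)) = Spec.map b := by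
      rw [← cancel_mono hV.fromSpec, hb, Spec.map_comp, Category.assoc, hb]
      exact hu g
    have h2 := Spec.map_injective h1
    exact congrArg (fun f : Γ(U, V) ⟶ CommRingCat.of Om => f.hom c) h2
  have hset : {g : GQ | sg g ≫ φ.1 = φ.1} = {g : GQ | ∀ c, gact g (a.hom c) = a.hom c} := by
    ext g
    rw [Set.mem_ofPred_eq, Set.mem_ofPred_eq]
    rw [← ha, ← Category.assoc, cancel_mono]
    unfold sg
    rw [← Spec.map_comp]
    constructor
    · intro h c
      have h2 := Spec.map_injective h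
      exact congrArg (fun f : Γ(E.Y, E.f ⁻¹ᵁ V) ⟶ CommRingCat.of Om => f.hom c) h2
    · intro h
      congr 1
      exact CommRingCat.hom_ext (RingHom.ext h)
  rw [hset]
  -- finite generation
  have hfin : (E.f.app V).hom.Finite := E.f.finite_app V hV
  let _ := (E.f.app V).hom.toAlgebra
  have hmf : Module.Finite Γ(U, V) Γ(E.Y, E.f ⁻¹ᵁ V) := hfin
  obtain ⟨S, hS⟩ := hmf.fg_top
  have hset2 : {g : GQ | ∀ c, gact g (a.hom c) = a.hom c}
      = ⋂ c ∈ S, {g : GQ | gact g (a.hom c) = a.hom c} := by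
    ext g
    simp only [Set.mem_ofPred_eq, Set.mem_iInter]
    refine ⟨fun h c _ => h c, fun h c => ?_⟩
    have hc : c ∈ Submodule.span Γ(U, V) (S : Set Γ(E.Y, E.f ⁻¹ᵁ V)) := by rw [hS]; trivial
    induction hc using Submodule.span_induction with
    | mem x hx => exact h x hx
    | zero => simp
    | add x y _ _ h1 h2 => rw [map_add, map_add, h1, h2]
    | smul r x _ h1 =>
      rw [Algebra.smul_def, map_mul, map_mul, h1]
      congr 1
      exact hfix g r
  rw [hset2]
  refine Set.Finite.isOpen_biInter S.finite_toSet fun c _ => ?_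
  have hint : IsIntegral Γ(U, V) c := Algebra.IsIntegral.isIntegral c
  obtain ⟨p, hp, hpc⟩ := hint
  refine isOpen_fix (a.hom c) (p.map b.hom) (hp.map _).ne_zero ?_ ?_
  · intro g i
    rw [coeff_map]
    exact hfix g _
  · rw [Polynomial.eval_map]
    have h1 : a.hom (eval₂ (algebraMap Γ(U, V) Γ(E.Y, E.f ⁻¹ᵁ V)) c p) = 0 := by
      rw [hpc, map_zero]
    rw [Polynomial.hom_eval₂] at h1
    exact h1

theorem continuous_sec : Continuous (sec hu) := by
  refine continuous_iInf_rng.2 fun E => continuous_iInf_rng.2 fun φ => ?_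
  let _ : TopologicalSpace (Fib u E) := ⊥
  refine continuous_induced_rng.2 ?_
  refine continuous_def.2 fun S _ => ?_
  rw [isOpen_iff_forall_mem_open]
  intro g hg
  refine ⟨(fun h => g⁻¹ * h) ⁻¹' {h : GQ | sg h ≫ φ.1 = φ.1}, ?_,
    (isOpen_stab hu E φ).preimage (continuous_const_mul _), ?_⟩
  · intro h hh
    have h1 : (sec hu h).act E φ = (sec hu g).act E φ := by
      apply Subtype.ext
      rw [sec_act, sec_act]
      have h2 : sg (g⁻¹ * h) ≫ φ.1 = φ.1 := hh
      have h3 : sg h = sg g ≫ sg (g⁻¹ * h) := by rw [← sg_mul, mul_inv_cancel_left]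
      rw [h3, Category.assoc, h2]
    change (sec hu h).act E φ ∈ S
    rw [h1]
    exact hg
  · change sg (g⁻¹ * g) ≫ φ.1 = φ.1
    rw [inv_mul_cancel, sg_one, Category.id_comp]

end

end Pool.Agent.W620.SB
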