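import Pool.Agent.W620.SB.Pi2

/-! # The splitting condition from a generic point invariant under the Galois group -/

set_option autoImplicit false

open CategoryTheory AlgebraicGeometry Limits

namespace Pool.Agent.W620.SB

theorem gact_cst (g : GQ) : (gact g).comp (Pool.Agent.W620.SB.cst (E := Qb))
    = (Pool.Agent.W620.SB.cst (E := Qb)).comp (g : Qb →+* Qb) := by
  ext1 a
  exact act_cst (g : Qb →+* Qb) a

theorem lift_aux {U B E : Scheme.{0}} (p : U ⟶ B) (f : E ⟶ B) (g : GQ) (u : Spec (.of Om) ⟶ U)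
    (hu : sg g ≫ u = u) (ψ : Spec (.of Qb) ⟶ E)
    (h1 : u ≫ p = (Spec.map (CommRingCat.ofHom (cst (E := Qb))) ≫ ψ) ≫ f)
    (h2 : u ≫ p = (Spec.map (CommRingCat.ofHom (cst (E := Qb))) ≫
      Spec.map (CommRingCat.ofHom (g : Qb →+* Qb)) ≫ ψ) ≫ f) :
    sg g ≫ pullback.lift u (Spec.map (CommRingCat.ofHom (cst (E := Qb))) ≫ ψ) h1 =
      pullback.lift u (Spec.map (CommRingCat.ofHom (cst (E := Qb))) ≫
      Spec.map (CommRingCat.ofHom (g : Qb →+* Qb)) ≫ ψ) h2 := by
  apply pullback.hom_ext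
  · rw [Category.assoc, pullback.lift_fst, pullback.lift_fst, hu]
  · rw [Category.assoc, pullback.lift_snd, pullback.lift_snd]
    unfold sg
    rw [← Category.assoc, ← Spec.map_comp, ← Category.assoc, ← Spec.map_comp,
      ← CommRingCat.ofHom_comp, ← CommRingCat.ofHom_comp, gact_cst]

theorem splitting_of_point {X : Scheme.{0}} (p : X ⟶ Spec (.of ℚ)) (x : Spec (.of Om) ⟶ X)
    (hx : ∀ g : GQ, sg g ≫ x = x)
    (hgen : ∀ (U : X.Opens), (U : Set X).Nonempty → ∀ z, x z ∈ U) : SplittingCondition p := by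
  intro U hU
  have : Nonempty (Spec (.of Om)) := inferInstanceAs (Nonempty (PrimeSpectrum Om))
  let z : Spec (.of Om) := Classical.arbitrary _
  have hne : (U : Set X).Nonempty := by
    have : Nonempty X := ⟨x z⟩
    exact hU.nonempty
  have hr : Set.range x ⊆ Set.range U.ι := by
    rw [Scheme.Opens.range_ι]
    exact range_subset x U z (hgen U hne z)
  let u : Spec (.of Om) ⟶ U := IsOpenImmersion.lift U.ι x hr
  have hu (g : GQ) : sg g ≫ u = u := by
    rw [← cancel_mono U.ι, Category.assoc, IsOpenImmersion.lift_fac, hx]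
  refine ⟨Om, inferInstance, inferInstance, u, cst, sec hu, continuous_sec hu, fun g E ψ => ?_⟩
  apply Subtype.ext
  exact lift_aux (U.ι ≫ p) E.f g u (hu g) ψ (toSpecQ_ext _ _) (toSpecQ_ext _ _)

end Pool.Agent.W620.SB
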